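import Mathlib

/-!
# Visibility graphs of simple polygons: the definitions

A polygon is given by the list `v 0, …, v (n-1)` of its vertices in the plane `ℝ × ℝ`, in cyclic
order. `finRotate n i` is the index after `i` in the cyclic order of `Fin n`.
-/

namespace Pool.Agent.Helper194.Vis

noncomputable section

/-! ## Simple polygons and their visibility graphs -/

/-- The closed polygonal curve with the vertices `v 0, …, v (n-1)` in this cyclic order. -/
def curve {n : ℕ} (v : Fin n → ℝ × ℝ) : Set (ℝ × ℝ) :=
  ⋃ i : Fin n, segment ℝ (v i) (v (finRotate n i))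

/-- `v` lists the vertices of a closed polygonal curve without self-intersections: the vertices
are distinct and two different edges meet at most in a common endpoint. -/
structure IsSimplePolygon {n : ℕ} (v : Fin n → ℝ × ℝ) : Prop where
  three_le : 3 ≤ n
  injective : Function.Injective v
  inter : ∀ i j : Fin n, i ≠ j →
    segment ℝ (v i) (v (finRotate n i)) ∩ segment ℝ (v j) (v (finRotate n j)) ⊆
      {v i, v (finRotate n i)} ∩ {v j, v (finRotate n j)}

/-- No vertex of the polygon is a straight angle. -/
def HasCorners {n : ℕ} (v : Fin n → ℝ × ℝ) : Prop :=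
  ∀ i : Fin n, ¬ Collinear ℝ {v i, v (finRotate n i), v (finRotate n (finRotate n i))}

/-- The closed region bounded by the polygonal curve: the curve together with the points off the
curve whose connected component in the complement of the curve is bounded. -/
def region {n : ℕ} (v : Fin n → ℝ × ℝ) : Set (ℝ × ℝ) :=
  curve v ∪ {x | x ∉ curve v ∧ Bornology.IsBounded (connectedComponentIn (curve v)ᶜ x)}

/-- The visibility graph of a polygon: two vertices are adjacent when the closed segment between
them lies in the closed region bounded by the polygon. -/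
def visGraph {n : ℕ} (v : Fin n → ℝ × ℝ) : SimpleGraph (Fin n) where
  Adj i j := i ≠ j ∧ segment ℝ (v i) (v j) ⊆ region v
  symm := ⟨fun _ _ h => ⟨h.1.symm, by rw [segment_symm]; exact h.2⟩⟩
  loopless := ⟨fun _ h => h.1 rfl⟩

/-- Isomorphism, as an equivalence relation on the graphs with the property `P`. -/
def isoSetoid {n : ℕ} (P : SimpleGraph (Fin n) → Prop) :
    Setoid {G : SimpleGraph (Fin n) // P G} where
  r G H := Nonempty (G.1 ≃g H.1)
  iseqv := ⟨fun _ => ⟨SimpleGraph.Iso.refl⟩, fun ⟨e⟩ => ⟨e.symm⟩,
    fun ⟨e⟩ ⟨e'⟩ => ⟨e.trans e'⟩⟩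

/-- `N(n)`: the number of isomorphism classes of visibility graphs of simple polygons with `n`
vertices. -/
def numVis (n : ℕ) : ℕ :=
  Nat.card (Quotient (isoSetoid (fun G : SimpleGraph (Fin n) =>
    ∃ v : Fin n → ℝ × ℝ, IsSimplePolygon v ∧ Nonempty (G ≃g visGraph v))))

/-- The same number, when only polygons without straight angles are admitted. -/
def numVisCorners (n : ℕ) : ℕ :=
  Nat.card (Quotient (isoSetoid (fun G : SimpleGraph (Fin n) =>
    ∃ v : Fin n → ℝ × ℝ, IsSimplePolygon v ∧ HasCorners v ∧ Nonempty (G ≃g visGraph v))))

end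

end Pool.Agent.Helper194.Vis
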