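import Pool.Agent.Helper194.VisDefs

/-!
# Many visibility graphs of simple polygons: the proof

The polygon of the construction is `x`-monotone, with `n = 2p + m + 1` vertices. Its lower chain has
the peaks `C_c = (2c, -c²)`, `0 ≤ c ≤ p`, on a concave curve, and a valley `B_i` over `2i + 1`; its
upper chain is concave and has the `m` targets `T_j` over `2p + j`. The `i`-th valley is placed so
that it sees exactly the first `f i` targets, where `f i` is prescribed. Peaks see all targets, and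
two vertices of the lower chain see each other only if no peak lies strictly between them. The
degrees tell valleys, peaks and targets apart, and the graph determines `f` up to isomorphism.
-/

namespace Pool.Agent.Helper194.Vis

noncomputable section

/-! ## Piecewise linear functions -/

/-- The piecewise linear function with the values `u 0, …, u N` at `0, …, N`. -/
def PL (u : ℕ → ℝ) (N : ℕ) (x : ℝ) : ℝ :=
  u 0 + ∑ j ∈ Finset.range N, (u (j + 1) - u j) * max 0 (min (x - j) 1)

lemma PL_continuous (u : ℕ → ℝ) (N : ℕ) : Continuous (PL u N) := by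
  unfold PL
  fun_prop

lemma PL_eq {u : ℕ → ℝ} {N k : ℕ} {x : ℝ} (hk : k < N) (h1 : (k : ℝ) ≤ x) (h2 : x ≤ k + 1) :
    PL u N x = u k + (x - k) * (u (k + 1) - u k) := by
  have key : ∀ M : ℕ, k + 1 ≤ M →
      ∑ j ∈ Finset.range M, (u (j + 1) - u j) * max 0 (min (x - j) 1)
        = (u k - u 0) + (x - k) * (u (k + 1) - u k) := by
    intro M hM
    induction M, hM using Nat.le_induction with
    | base =>
      rw [Finset.sum_range_succ]
      have e1 : ∑ j ∈ Finset.range k, (u (j + 1) - u j) * max 0 (min (x - j) 1)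
          = ∑ j ∈ Finset.range k, (u (j + 1) - u j) := by
        apply Finset.sum_congr rfl
        intro j hj
        have hj' : (j : ℝ) + 1 ≤ k := by exact_mod_cast Finset.mem_range.mp hj
        rw [min_eq_right (by linarith), max_eq_right (by norm_num), mul_one]
      rw [e1, Finset.sum_range_sub, min_eq_left (by linarith), max_eq_right (by linarith)]
      ring
    | succ M hM ih =>
      rw [Finset.sum_range_succ, ih]
      have hM' : (k : ℝ) + 1 ≤ M := by exact_mod_cast hM
      rw [max_eq_left (by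
        have := min_le_left (x - M) 1
        linarith)]
      ring
  unfold PL
  rw [key N hk]
  ring

lemma exists_cell {a b : ℕ} (hab : a < b) {x : ℝ} (h1 : (a : ℝ) ≤ x) (h2 : x ≤ b) :
    ∃ k : ℕ, a ≤ k ∧ k < b ∧ (k : ℝ) ≤ x ∧ x ≤ k + 1 := by
  rcases eq_or_lt_of_le h2 with h | h
  · refine ⟨b - 1, by omega, by omega, ?_, ?_⟩
    · have : ((b - 1 : ℕ) : ℝ) ≤ b := by exact_mod_cast Nat.sub_le b 1
      linarith
    · have : ((b - 1 : ℕ) : ℝ) + 1 = b := by
        have : b - 1 + 1 = b := by omega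
        exact_mod_cast this
      linarith
  · refine ⟨⌊x⌋₊, Nat.le_floor h1, ?_, ?_, ?_⟩
    · rw [Nat.floor_lt (le_trans (Nat.cast_nonneg _) h1)]
      exact h
    · exact Nat.floor_le (le_trans (Nat.cast_nonneg _) h1)
    · exact (Nat.lt_floor_add_one x).le

lemma PL_nat {u : ℕ → ℝ} {N k : ℕ} (hN : 0 < N) (hk : k ≤ N) : PL u N k = u k := by
  rcases Nat.lt_or_ge k N with h | h
  · rw [PL_eq h le_rfl (by linarith)]
    ring
  · obtain rfl : k = N := le_antisymm hk h
    obtain ⟨k, rfl⟩ : ∃ j, k = j + 1 := ⟨k - 1, by omega⟩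
    rw [PL_eq (k := k) (by omega) (by push_cast; linarith) (by push_cast; linarith)]
    push_cast
    ring

lemma PL_affine {u : ℕ → ℝ} {N a b : ℕ} {s : ℝ} (hab : a < b) (hb : b ≤ N)
    (hu : ∀ k, a ≤ k → k ≤ b → u k = u a + (k - a) * s) {x : ℝ} (h1 : (a : ℝ) ≤ x)
    (h2 : x ≤ b) : PL u N x = u a + (x - a) * s := by
  obtain ⟨k, hk1, hk2, hk3, hk4⟩ := exists_cell hab h1 h2
  rw [PL_eq (lt_of_lt_of_le hk2 hb) hk3 hk4, hu k hk1 hk2.le, hu (k + 1) (by omega) hk2]
  push_cast
  ring

/-! ## Segments -/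

lemma segment_eq {a b α β : ℝ} (hab : a < b) :
    segment ℝ (a, α) (b, β) =
      {p : ℝ × ℝ | a ≤ p.1 ∧ p.1 ≤ b ∧ p.2 = α + (p.1 - a) * ((β - α) / (b - a))} := by
  have hba : (0 : ℝ) < b - a := by linarith
  rw [segment_eq_image']
  ext p
  constructor
  · rintro ⟨t, ⟨ht0, ht1⟩, rfl⟩
    simp only [Prod.mk_sub_mk, Prod.smul_mk, smul_eq_mul, Prod.mk_add_mk, Set.mem_ofPred_eq]
    refine ⟨by nlinarith, by nlinarith, ?_⟩
    field_simp
    ring
  · rintro ⟨h1, h2, h3⟩
    refine ⟨(p.1 - a) / (b - a), ⟨div_nonneg (by linarith) hba.le, ?_⟩, ?_⟩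
    · rw [div_le_one hba]; linarith
    · apply Prod.ext
      · simp only [Prod.mk_sub_mk, Prod.smul_mk, smul_eq_mul, Prod.mk_add_mk]
        field_simp
        ring
      · simp only [Prod.mk_sub_mk, Prod.smul_mk, smul_eq_mul, Prod.mk_add_mk]
        rw [h3]
        field_simp

/-- the region between two graphs -/
def slab (g h : ℝ → ℝ) (a b : ℝ) : Set (ℝ × ℝ) :=
  {p | a ≤ p.1 ∧ p.1 ≤ b ∧ g p.1 ≤ p.2 ∧ p.2 ≤ h p.1}

lemma slab_bounded {g h : ℝ → ℝ} (hg : Continuous g) (hh : Continuous h) (a b : ℝ) :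
    Bornology.IsBounded (slab g h a b) := by
  obtain ⟨c, hc⟩ := (isCompact_Icc (a := a) (b := b)).exists_bound_of_continuousOn hg.continuousOn
  obtain ⟨d, hd⟩ := (isCompact_Icc (a := a) (b := b)).exists_bound_of_continuousOn hh.continuousOn
  rw [isBounded_iff_forall_norm_le]
  refine ⟨max (max |a| |b|) (max c d), ?_⟩
  rintro ⟨x, y⟩ ⟨h1, h2, h3, h4⟩
  simp only at h1 h2 h3 h4
  have hgx := hc x ⟨h1, h2⟩
  have hhx := hd x ⟨h1, h2⟩
  rw [Real.norm_eq_abs] at hgx hhx
  rw [Prod.norm_def]
  apply max_le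
  · apply le_max_of_le_left
    simp only [Real.norm_eq_abs]
    exact abs_le_max_abs_abs h1 h2
  · apply le_max_of_le_right
    simp only [Real.norm_eq_abs]
    refine (abs_le_max_abs_abs h3 h4).trans (max_le_max hgx hhx)

lemma up_ray_unbounded (p : ℝ × ℝ) : ¬ Bornology.IsBounded {q : ℝ × ℝ | q.1 = p.1 ∧ p.2 ≤ q.2} := by
  intro h
  obtain ⟨C, hC⟩ := isBounded_iff_forall_norm_le.mp h
  have := hC (p.1, |p.2| + |C| + 1) ⟨rfl, by
    have := le_abs_self p.2
    have := abs_nonneg C
    simp only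
    linarith⟩
  rw [Prod.norm_def] at this
  have h2 := (le_max_right ‖p.1‖ ‖|p.2| + |C| + 1‖).trans this
  rw [Real.norm_eq_abs] at h2
  have h3 := le_abs_self (|p.2| + |C| + 1)
  have := abs_nonneg p.2
  have := le_abs_self C
  linarith

lemma down_ray_unbounded (p : ℝ × ℝ) :
    ¬ Bornology.IsBounded {q : ℝ × ℝ | q.1 = p.1 ∧ q.2 ≤ p.2} := by
  intro h
  obtain ⟨C, hC⟩ := isBounded_iff_forall_norm_le.mp h
  have := hC (p.1, -(|p.2| + |C| + 1)) ⟨rfl, by
    have := neg_abs_le p.2
    have := abs_nonneg C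
    simp only
    linarith⟩
  rw [Prod.norm_def] at this
  have h2 := (le_max_right ‖p.1‖ ‖-(|p.2| + |C| + 1)‖).trans this
  rw [Real.norm_eq_abs, abs_neg] at h2
  have h3 := le_abs_self (|p.2| + |C| + 1)
  have := abs_nonneg p.2
  have := le_abs_self C
  linarith

lemma up_ray_preconnected (p : ℝ × ℝ) : IsPreconnected {q : ℝ × ℝ | q.1 = p.1 ∧ p.2 ≤ q.2} := by
  apply Convex.isPreconnected
  rintro ⟨x, y⟩ ⟨h1, h2⟩ ⟨x', y'⟩ ⟨h1', h2'⟩ s t hs ht hst
  simp only at h1 h2 h1' h2'
  refine ⟨?_, ?_⟩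
  · simp only [Prod.smul_mk, smul_eq_mul, Prod.mk_add_mk]
    rw [h1, h1', ← add_mul, hst, one_mul]
  · simp only [Prod.smul_mk, smul_eq_mul, Prod.mk_add_mk]
    have : p.2 = s * p.2 + t * p.2 := by rw [← add_mul, hst, one_mul]
    rw [this]
    gcongr

lemma down_ray_preconnected (p : ℝ × ℝ) :
    IsPreconnected {q : ℝ × ℝ | q.1 = p.1 ∧ q.2 ≤ p.2} := by
  apply Convex.isPreconnected
  rintro ⟨x, y⟩ ⟨h1, h2⟩ ⟨x', y'⟩ ⟨h1', h2'⟩ s t hs ht hst
  simp only at h1 h2 h1' h2'
  refine ⟨?_, ?_⟩
  · simp only [Prod.smul_mk, smul_eq_mul, Prod.mk_add_mk]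
    rw [h1, h1', ← add_mul, hst, one_mul]
  · simp only [Prod.smul_mk, smul_eq_mul, Prod.mk_add_mk]
    have : p.2 = s * p.2 + t * p.2 := by rw [← add_mul, hst, one_mul]
    rw [this]
    gcongr

lemma not_bounded_of_ray {C R : Set (ℝ × ℝ)} {x : ℝ × ℝ} (hR : IsPreconnected R)
    (hx : x ∈ R) (hRC : R ⊆ Cᶜ) (hub : ¬ Bornology.IsBounded R) :
    ¬ Bornology.IsBounded (connectedComponentIn Cᶜ x) := fun h =>
  hub (h.subset (hR.subset_connectedComponentIn hx hRC))

lemma region_of_curve {C : Set (ℝ × ℝ)} {g h : ℝ → ℝ} (hg : Continuous g) (hh : Continuous h)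
    {a b : ℝ} (_hab : a < b) (hlt : ∀ x, a < x → x < b → g x < h x) (ha : g a = h a)
    (hb : g b = h b)
    (hC : C = {p : ℝ × ℝ | a ≤ p.1 ∧ p.1 ≤ b ∧ (p.2 = g p.1 ∨ p.2 = h p.1)}) :
    C ∪ {x | x ∉ C ∧ Bornology.IsBounded (connectedComponentIn Cᶜ x)} = slab g h a b := by
  have hle : ∀ x, a ≤ x → x ≤ b → g x ≤ h x := by
    intro x h1 h2
    rcases eq_or_lt_of_le h1 with h | h
    · rw [← h, ha]
    · rcases eq_or_lt_of_le h2 with h' | h'
      · rw [h', hb]
      · exact (hlt x h h').le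
  have hCs : C ⊆ slab g h a b := by
    rw [hC]
    rintro p ⟨h1, h2, h3⟩
    refine ⟨h1, h2, ?_⟩
    have := hle _ h1 h2
    rcases h3 with h3 | h3 <;> rw [h3]
    · exact ⟨le_rfl, this⟩
    · exact ⟨this, le_rfl⟩
  apply Set.Subset.antisymm
  · rintro p (hp | ⟨hp, hbd⟩)
    · exact hCs hp
    · by_contra hcon
      by_cases h1 : a ≤ p.1 ∧ p.1 ≤ b
      · obtain ⟨h1, h2⟩ := h1
        have h3 : p.2 < g p.1 ∨ h p.1 < p.2 := by
          by_contra h3
          push Not at h3
          exact hcon ⟨h1, h2, h3.1, h3.2⟩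
        rcases h3 with h3 | h3
        · refine not_bounded_of_ray (down_ray_preconnected p) ⟨rfl, le_rfl⟩ ?_
            (down_ray_unbounded p) hbd
          rintro q ⟨hq1, hq2⟩ hqC
          have := (hCs hqC).2.2.1
          rw [hq1] at this
          linarith
        · refine not_bounded_of_ray (up_ray_preconnected p) ⟨rfl, le_rfl⟩ ?_
            (up_ray_unbounded p) hbd
          rintro q ⟨hq1, hq2⟩ hqC
          have := (hCs hqC).2.2.2
          rw [hq1] at this
          linarith
      · refine not_bounded_of_ray (up_ray_preconnected p) ⟨rfl, le_rfl⟩ ?_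
          (up_ray_unbounded p) hbd
        rintro q ⟨hq1, hq2⟩ hqC
        apply h1
        rw [← hq1]
        exact ⟨(hCs hqC).1, (hCs hqC).2.1⟩
  · intro p hp
    by_cases hpC : p ∈ C
    · exact Or.inl hpC
    · right
      refine ⟨hpC, ?_⟩
      set U : Set (ℝ × ℝ) := {q | a < q.1 ∧ q.1 < b ∧ g q.1 < q.2 ∧ q.2 < h q.1} with hU
      have hUs : U ⊆ slab g h a b := fun q hq =>
        ⟨hq.1.le, hq.2.1.le, hq.2.2.1.le, hq.2.2.2.le⟩
      have memU : ∀ q, q ∈ slab g h a b → q ∉ C → q ∈ U := by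
        rintro q ⟨h1, h2, h3, h4⟩ hq
        rw [hC] at hq
        have h5 : q.2 ≠ g q.1 := fun h => hq ⟨h1, h2, Or.inl h⟩
        have h6 : q.2 ≠ h q.1 := fun h => hq ⟨h1, h2, Or.inr h⟩
        have h7 : g q.1 < q.2 := lt_of_le_of_ne h3 h5.symm
        have h8 : q.2 < h q.1 := lt_of_le_of_ne h4 h6
        refine ⟨lt_of_le_of_ne h1 ?_, lt_of_le_of_ne h2 ?_, h7, h8⟩
        · intro h; rw [← h] at h7 h8; linarith
        · intro h; rw [h] at h7 h8; linarith
      have hUo : IsOpen U := by
        rw [hU]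
        refine IsOpen.inter (isOpen_lt continuous_const continuous_fst)
          (IsOpen.inter (isOpen_lt continuous_fst continuous_const)
          (IsOpen.inter (isOpen_lt (hg.comp continuous_fst) continuous_snd)
            (isOpen_lt continuous_snd (hh.comp continuous_fst))))
      have hSc : IsClosed (slab g h a b) := by
        refine IsClosed.inter (isClosed_le continuous_const continuous_fst)
          (IsClosed.inter (isClosed_le continuous_fst continuous_const)
          (IsClosed.inter (isClosed_le (hg.comp continuous_fst) continuous_snd)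
            (isClosed_le continuous_snd (hh.comp continuous_fst))))
      have hsub : connectedComponentIn Cᶜ p ⊆ U := by
        refine IsPreconnected.subset_left_of_subset_union hUo hSc.isOpen_compl ?_ ?_ ?_
          isPreconnected_connectedComponentIn
        · exact Set.disjoint_left.mpr fun q hq hq' => hq' (hUs hq)
        · intro q hq
          have hqC := connectedComponentIn_subset _ _ hq
          by_cases hqs : q ∈ slab g h a b
          · exact Or.inl (memU q hqs hqC)
          · exact Or.inr hqs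
        · exact ⟨p, mem_connectedComponentIn hpC, memU p hp hpC⟩
      exact ((slab_bounded hg hh a b).subset hUs).subset hsub

/-! ## Polygons between two piecewise linear chains -/

/-- the `x`-coordinate of the `i`-th vertex -/
def X (N q i : ℕ) : ℕ := if i ≤ q then i else N + q + 1 - i

/-- the height of the vertex with `x`-coordinate `k` -/
def Y (q : ℕ) (G H : ℕ → ℝ) (k : ℕ) : ℝ := if k ≤ q then G k else H k

/-- lower chain `(k, G k)`, `k ≤ q`, then the upper chain `(k, H k)`, `k = N, …, q + 1` -/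
def poly (N q : ℕ) (G H : ℕ → ℝ) : Fin (N + 1) → ℝ × ℝ :=
  fun i => ((X N q i : ℝ), Y q G H (X N q i))

structure Good (N q : ℕ) (G H : ℕ → ℝ) : Prop where
  hq : 1 ≤ q
  hqN : q < N
  h0 : G 0 = H 0
  hN : G N = H N
  lt : ∀ k, 0 < k → k < N → G k < H k
  Gaff : ∃ s : ℝ, ∀ k : ℕ, q ≤ k → k ≤ N → G k = G q + ((k : ℝ) - q) * s
  Haff : ∃ s : ℝ, ∀ k : ℕ, 0 ≤ k → k ≤ q + 1 → H k = H 0 + ((k : ℝ) - (0 : ℕ)) * s

lemma seg_graph {u : ℕ → ℝ} {N a b : ℕ} {s : ℝ} (hab : a < b) (hb : b ≤ N)
    (hu : ∀ k : ℕ, a ≤ k → k ≤ b → u k = u a + ((k : ℝ) - a) * s) :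
    segment ℝ ((a : ℝ), u a) ((b : ℝ), u b) =
      {p : ℝ × ℝ | (a : ℝ) ≤ p.1 ∧ p.1 ≤ b ∧ p.2 = PL u N p.1} := by
  have hab' : (a : ℝ) < b := by exact_mod_cast hab
  have hs : (u b - u a) / ((b : ℝ) - a) = s := by
    rw [hu b hab.le le_rfl]
    have : (b : ℝ) - a ≠ 0 := by linarith
    field_simp
    ring
  rw [segment_eq hab', hs]
  ext p
  constructor
  · rintro ⟨h1, h2, h3⟩
    exact ⟨h1, h2, by rw [h3, PL_affine hab hb hu h1 h2]⟩
  · rintro ⟨h1, h2, h3⟩
    exact ⟨h1, h2, by rw [h3, PL_affine hab hb hu h1 h2]⟩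

lemma seg_unit {u : ℕ → ℝ} {N a : ℕ} (hb : a + 1 ≤ N) :
    segment ℝ ((a : ℝ), u a) (((a + 1 : ℕ) : ℝ), u (a + 1)) =
      {p : ℝ × ℝ | (a : ℝ) ≤ p.1 ∧ p.1 ≤ ((a + 1 : ℕ) : ℝ) ∧ p.2 = PL u N p.1} := by
  apply seg_graph (s := u (a + 1) - u a) (Nat.lt_succ_self a) hb
  intro k h1 h2
  rcases Nat.lt_or_ge a k with h | h
  · obtain rfl : k = a + 1 := by omega
    push_cast
    ring
  · obtain rfl : k = a := by omega
    ring

variable {N q : ℕ} {G H : ℕ → ℝ}

lemma rot_val (i : Fin (N + 1)) :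
    ((finRotate (N + 1) i : Fin (N + 1)) : ℕ) = if (i : ℕ) = N then 0 else (i : ℕ) + 1 := by
  rw [coe_finRotate]
  congr 1
  rw [Fin.ext_iff]
  simp

lemma edge_bot (hG : Good N q G H) (i : Fin (N + 1)) (hi : (i : ℕ) ≤ q) :
    (X N q i) < X N q (finRotate (N + 1) i) ∧ X N q (finRotate (N + 1) i) ≤ N ∧
    segment ℝ (poly N q G H i) (poly N q G H (finRotate (N + 1) i)) =
      {p : ℝ × ℝ | (X N q i : ℝ) ≤ p.1 ∧ p.1 ≤ (X N q (finRotate (N + 1) i) : ℝ) ∧
        p.2 = PL G N p.1} := by
  have hqN := hG.hqN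
  have e1 : X N q i = i := by simp [X, hi]
  rcases Nat.lt_or_ge (i : ℕ) q with h | h
  · have e2 : X N q (finRotate (N + 1) i) = i + 1 := by
      rw [rot_val, if_neg (by omega)]
      simp only [X]
      rw [if_pos (by omega)]
    refine ⟨by rw [e1, e2]; omega, by rw [e2]; omega, ?_⟩
    simp only [poly]
    rw [e1, e2]
    have e3 : Y q G H i = G i := by simp [Y, hi]
    have e4 : Y q G H (i + 1) = G (i + 1) := by
      simp only [Y]
      rw [if_pos (by omega)]
    rw [e3, e4]
    exact seg_unit (by omega)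
  · have hiq : (i : ℕ) = q := le_antisymm hi h
    have e2 : X N q (finRotate (N + 1) i) = N := by
      rw [rot_val, if_neg (by omega)]
      simp only [X]
      rw [if_neg (by omega)]
      omega
    refine ⟨by rw [e1, e2]; omega, by rw [e2], ?_⟩
    simp only [poly]
    rw [e1, e2, hiq]
    have e3 : Y q G H q = G q := by simp [Y]
    have e4 : Y q G H N = G N := by
      simp only [Y]
      rw [if_neg (by omega), hG.hN]
    rw [e3, e4]
    obtain ⟨s, hs⟩ := hG.Gaff
    exact seg_graph hqN le_rfl hs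

lemma edge_top (hG : Good N q G H) (i : Fin (N + 1)) (hi : q < (i : ℕ)) :
    X N q (finRotate (N + 1) i) < (X N q i) ∧ X N q i ≤ N ∧
    segment ℝ (poly N q G H i) (poly N q G H (finRotate (N + 1) i)) =
      {p : ℝ × ℝ | (X N q (finRotate (N + 1) i) : ℝ) ≤ p.1 ∧ p.1 ≤ (X N q i : ℝ) ∧
        p.2 = PL H N p.1} := by
  have hqN := hG.hqN
  have hiN : (i : ℕ) < N + 1 := i.2
  have e1 : X N q i = N + q + 1 - i := by
    simp only [X]
    rw [if_neg (by omega)]
  rcases Nat.lt_or_ge (i : ℕ) N with h | h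
  · have e2 : X N q (finRotate (N + 1) i) = N + q - i := by
      rw [rot_val, if_neg (by omega)]
      simp only [X]
      rw [if_neg (by omega)]
      omega
    have e5 : X N q i = (N + q - i) + 1 := by rw [e1]; omega
    refine ⟨by rw [e5, e2]; omega, by rw [e5]; omega, ?_⟩
    rw [segment_symm]
    simp only [poly]
    rw [e5, e2]
    have e3 : Y q G H (N + q - i) = H (N + q - i) := by
      simp only [Y]
      rw [if_neg (by omega)]
    have e4 : Y q G H (N + q - i + 1) = H (N + q - i + 1) := by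
      simp only [Y]
      rw [if_neg (by omega)]
    rw [e3, e4]
    exact seg_unit (by omega)
  · have hiq : (i : ℕ) = N := by omega
    have e5 : X N q i = q + 1 := by rw [e1]; omega
    have e2 : X N q (finRotate (N + 1) i) = 0 := by
      rw [rot_val, if_pos hiq]
      simp [X]
    refine ⟨by rw [e5, e2]; omega, by rw [e5]; omega, ?_⟩
    rw [segment_symm]
    simp only [poly]
    rw [e5, e2]
    have e3 : Y q G H 0 = H 0 := by simp [Y, hG.h0]
    have e4 : Y q G H (q + 1) = H (q + 1) := by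
      simp only [Y]
      rw [if_neg (by omega)]
    rw [e3, e4]
    obtain ⟨s, hs⟩ := hG.Haff
    exact seg_graph (by omega) (by omega) hs

lemma PL_lt (hG : Good N q G H) {x : ℝ} (h1 : 0 < x) (h2 : x < N) : PL G N x < PL H N x := by
  have hq := hG.hq
  have hqN := hG.hqN
  have hk1 : (⌊x⌋₊ : ℝ) ≤ x := Nat.floor_le h1.le
  have hk2 : x < ⌊x⌋₊ + 1 := Nat.lt_floor_add_one x
  have hk3 : ⌊x⌋₊ < N := by rw [Nat.floor_lt h1.le]; exact h2
  generalize ⌊x⌋₊ = k at *
  rw [PL_eq hk3 hk1 hk2.le, PL_eq hk3 hk1 hk2.le]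
  have hle : ∀ k, k ≤ N → G k ≤ H k := by
    intro k hk
    rcases Nat.eq_zero_or_pos k with h | h
    · rw [h, hG.h0]
    · rcases Nat.lt_or_ge k N with h' | h'
      · exact (hG.lt k h h').le
      · obtain rfl : k = N := le_antisymm hk h'
        rw [hG.hN]
  have a1 := hle k hk3.le
  have a2 := hle (k + 1) hk3
  have t0 : 0 ≤ x - k := by linarith
  have t1 : 0 < 1 - (x - k) := by linarith
  rcases Nat.eq_zero_or_pos k with h | h
  · subst h
    have a3 := hG.lt 1 (by omega) (by omega)
    have t2 : 0 < x - ((0 : ℕ) : ℝ) := by simpa using h1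
    rw [hG.h0]
    have := mul_lt_mul_of_pos_left a3 t2
    simp only [zero_add]
    nlinarith
  · have a3 := hG.lt k h hk3
    have b1 := mul_lt_mul_of_pos_left a3 t1
    have b2 := mul_le_mul_of_nonneg_left a2 t0
    nlinarith

lemma PL_G0 (hG : Good N q G H) : PL G N 0 = G 0 := by
  have := PL_nat (u := G) (N := N) (k := 0) (by have := hG.hqN; omega) (by omega)
  simpa using this

lemma PL_H0 (hG : Good N q G H) : PL H N 0 = H 0 := by
  have := PL_nat (u := H) (N := N) (k := 0) (by have := hG.hqN; omega) (by omega)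
  simpa using this

lemma PL_GN (hG : Good N q G H) : PL G N N = G N :=
  PL_nat (by have := hG.hqN; omega) le_rfl

lemma PL_HN (hG : Good N q G H) : PL H N N = H N :=
  PL_nat (by have := hG.hqN; omega) le_rfl

lemma curve_poly (hG : Good N q G H) : curve (poly N q G H) =
    {p : ℝ × ℝ | (0 : ℝ) ≤ p.1 ∧ p.1 ≤ N ∧ (p.2 = PL G N p.1 ∨ p.2 = PL H N p.1)} := by
  have hqN := hG.hqN
  ext p
  simp only [curve, Set.mem_iUnion]
  constructor
  · rintro ⟨i, hi⟩
    rcases Nat.lt_or_ge q (i : ℕ) with h | h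
    · obtain ⟨h1, h2, h3⟩ := edge_top hG i h
      rw [h3] at hi
      obtain ⟨h4, h5, h6⟩ := hi
      refine ⟨le_trans (Nat.cast_nonneg _) h4, h5.trans ?_, Or.inr h6⟩
      exact_mod_cast h2
    · obtain ⟨h1, h2, h3⟩ := edge_bot hG i h
      rw [h3] at hi
      obtain ⟨h4, h5, h6⟩ := hi
      refine ⟨le_trans (Nat.cast_nonneg _) h4, h5.trans ?_, Or.inl h6⟩
      exact_mod_cast h2
  · rintro ⟨h1, h2, h3 | h3⟩
    · rcases le_or_gt p.1 (q : ℝ) with h | h
      · obtain ⟨k, hk1, hk2, hk3, hk4⟩ := exists_cell (a := 0) (b := q) hG.hq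
          (by simpa using h1) h
        refine ⟨⟨k, by omega⟩, ?_⟩
        obtain ⟨_, _, e3⟩ := edge_bot hG (⟨k, by omega⟩ : Fin (N + 1)) hk2.le
        rw [e3]
        have e1 : X N q k = k := by simp [X, hk2.le]
        have e2 : X N q (finRotate (N + 1) (⟨k, by omega⟩ : Fin (N + 1))) = k + 1 := by
          rw [rot_val, if_neg (by simp only; omega)]
          simp only [X]
          rw [if_pos (by omega)]
        refine ⟨?_, ?_, h3⟩
        · simp only [e1]; exact hk3
        · rw [e2]; push_cast; exact hk4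
      · refine ⟨⟨q, by omega⟩, ?_⟩
        obtain ⟨_, _, e3⟩ := edge_bot hG (⟨q, by omega⟩ : Fin (N + 1)) le_rfl
        rw [e3]
        have e1 : X N q q = q := by simp [X]
        have e2 : X N q (finRotate (N + 1) (⟨q, by omega⟩ : Fin (N + 1))) = N := by
          rw [rot_val, if_neg (by simp only; omega)]
          simp only [X]
          rw [if_neg (by omega)]
          omega
        refine ⟨?_, ?_, h3⟩
        · simp only [e1]; exact h.le
        · rw [e2]; exact h2
    · rcases le_or_gt p.1 ((q + 1 : ℕ) : ℝ) with h | h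
      · refine ⟨⟨N, by omega⟩, ?_⟩
        obtain ⟨_, _, e3⟩ := edge_top hG (⟨N, by omega⟩ : Fin (N + 1)) hqN
        rw [e3]
        have e1 : X N q N = q + 1 := by
          simp only [X]
          rw [if_neg (by omega)]
          omega
        have e2 : X N q (finRotate (N + 1) (⟨N, by omega⟩ : Fin (N + 1))) = 0 := by
          rw [rot_val, if_pos rfl]
          simp [X]
        refine ⟨?_, ?_, h3⟩
        · rw [e2]; simpa using h1
        · simp only [e1]; exact h
      · have hN1 : q + 1 < N := by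
          have : ((q + 1 : ℕ) : ℝ) < N := lt_of_lt_of_le h h2
          exact_mod_cast this
        obtain ⟨k, hk1, hk2, hk3, hk4⟩ := exists_cell (a := q + 1) (b := N) hN1 h.le h2
        have hlt : N + q - k < N + 1 := by omega
        refine ⟨⟨N + q - k, hlt⟩, ?_⟩
        obtain ⟨_, _, e3⟩ := edge_top hG (⟨N + q - k, hlt⟩ : Fin (N + 1)) (by simp only; omega)
        rw [e3]
        have e1 : X N q (N + q - k) = k + 1 := by
          simp only [X]
          rw [if_neg (by omega)]
          omega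
        have e2 : X N q (finRotate (N + 1) (⟨N + q - k, hlt⟩ : Fin (N + 1))) = k := by
          rw [rot_val, if_neg (by simp only; omega)]
          simp only [X]
          rw [if_neg (by omega)]
          omega
        refine ⟨?_, ?_, h3⟩
        · rw [e2]; exact hk3
        · simp only [e1]; push_cast; exact hk4

lemma region_poly (hG : Good N q G H) :
    region (poly N q G H) = slab (PL G N) (PL H N) 0 N := by
  have hqN := hG.hqN
  have hN : (0 : ℝ) < N := by exact_mod_cast (by omega : 0 < N)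
  apply region_of_curve (PL_continuous _ _) (PL_continuous _ _) hN
  · intro x h1 h2
    exact PL_lt hG h1 h2
  · rw [PL_G0 hG, PL_H0 hG, hG.h0]
  · rw [PL_GN hG, PL_HN hG, hG.hN]
  · exact curve_poly hG

lemma X_le (hG : Good N q G H) (i : Fin (N + 1)) : X N q i ≤ N := by
  have := hG.hqN
  have := i.2
  simp only [X]
  split_ifs <;> omega

lemma X_inj (hG : Good N q G H) {i j : Fin (N + 1)} (h : X N q i = X N q j) : i = j := by
  have := hG.hqN
  have := i.2
  have := j.2
  simp only [X] at h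
  apply Fin.ext
  split_ifs at h <;> omega

lemma poly_injective (hG : Good N q G H) : Function.Injective (poly N q G H) := by
  intro i j h
  apply X_inj hG
  have := congrArg Prod.fst h
  simp only [poly] at this
  exact_mod_cast this

lemma poly_of_X {i j : Fin (N + 1)} (h : X N q i = X N q j) :
    poly N q G H i = poly N q G H j := by
  simp only [poly, h]

/-- a point of the lower graph over the `x`-coordinate of a vertex that lies on the lower chain -/
lemma simple_poly (hG : Good N q G H) : IsSimplePolygon (poly N q G H) := by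
  have hq := hG.hq
  have hqN := hG.hqN
  refine ⟨by omega, poly_injective hG, ?_⟩
  -- it suffices to find a common index
  have key : ∀ i j : Fin (N + 1), (i : ℕ) < j → ∀ p : ℝ × ℝ,
      p ∈ segment ℝ (poly N q G H i) (poly N q G H (finRotate (N + 1) i)) →
      p ∈ segment ℝ (poly N q G H j) (poly N q G H (finRotate (N + 1) j)) →
      (p = poly N q G H (finRotate (N + 1) i) ∧ finRotate (N + 1) i = j) ∨
      (p = poly N q G H i ∧ i = finRotate (N + 1) j) := by
    intro i j hij p hpi hpj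
    have hiN := i.2
    have hjN := j.2
    rcases Nat.lt_or_ge q (i : ℕ) with hi | hi
    · -- both on top
      have hj : q < (j : ℕ) := by omega
      obtain ⟨a1, a2, a3⟩ := edge_top hG i hi
      obtain ⟨b1, b2, b3⟩ := edge_top hG j hj
      rw [a3] at hpi
      rw [b3] at hpj
      obtain ⟨c1, c2, c3⟩ := hpi
      obtain ⟨d1, d2, d3⟩ := hpj
      have f1 : X N q (finRotate (N + 1) i) ≤ X N q j := by exact_mod_cast c1.trans d2
      have f2 : X N q (finRotate (N + 1) i) = N + q - i := by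
        rw [rot_val, if_neg (by omega)]
        simp only [X]
        rw [if_neg (by omega)]
        omega
      have f3 : X N q j = N + q + 1 - j := by
        simp only [X]
        rw [if_neg (by omega)]
      have f4 : (i : ℕ) + 1 = j := by omega
      have f5 : finRotate (N + 1) i = j := by
        apply Fin.ext
        rw [rot_val, if_neg (by omega), f4]
      left
      refine ⟨?_, f5⟩
      rw [f5]
      have f6 : p.1 = (X N q j : ℝ) := by
        apply le_antisymm d2
        rw [f5] at c1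
        exact c1
      apply Prod.ext
      · simp only [poly]; exact f6
      · simp only [poly]
        rw [d3, f6, PL_nat (by omega) b2]
        simp only [Y]
        rw [if_neg (by omega)]
    · obtain ⟨a1, a2, a3⟩ := edge_bot hG i hi
      rw [a3] at hpi
      obtain ⟨c1, c2, c3⟩ := hpi
      have g1 : X N q i = i := by simp [X, hi]
      rcases Nat.lt_or_ge q (j : ℕ) with hj | hj
      · obtain ⟨b1, b2, b3⟩ := edge_top hG j hj
        rw [b3] at hpj
        obtain ⟨d1, d2, d3⟩ := hpj
        have hx0 : 0 ≤ p.1 := le_trans (Nat.cast_nonneg _) c1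
        have hxN : p.1 ≤ N := c2.trans (by exact_mod_cast a2)
        rcases eq_or_lt_of_le hx0 with h0 | h0
        · -- p.1 = 0
          have e1 : X N q i = 0 := by
            rw [← h0] at c1
            exact_mod_cast le_antisymm c1 (Nat.cast_nonneg _)
          have e2 : X N q (finRotate (N + 1) j) = 0 := by
            rw [← h0] at d1
            exact_mod_cast le_antisymm d1 (Nat.cast_nonneg _)
          right
          refine ⟨?_, X_inj hG (e1.trans e2.symm)⟩
          apply Prod.ext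
          · simp only [poly]
            rw [e1, ← h0]
            simp
          · simp only [poly]
            rw [c3, e1, ← h0, PL_G0 hG]
            simp [Y]
        · rcases eq_or_lt_of_le hxN with h1 | h1
          · have e1 : X N q (finRotate (N + 1) i) = N := by
              rw [h1] at c2
              exact le_antisymm a2 (by exact_mod_cast c2)
            have e2 : X N q j = N := by
              rw [h1] at d2
              exact le_antisymm b2 (by exact_mod_cast d2)
            left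
            refine ⟨?_, X_inj hG (e1.trans e2.symm)⟩
            apply Prod.ext
            · simp only [poly]
              rw [e1, h1]
            · simp only [poly]
              rw [d3, e1, h1, PL_HN hG]
              simp only [Y]
              rw [if_neg (by omega)]
          · exfalso
            have := PL_lt hG h0 h1
            rw [← c3, ← d3] at this
            exact lt_irrefl _ this
      · obtain ⟨b1, b2, b3⟩ := edge_bot hG j hj
        rw [b3] at hpj
        obtain ⟨d1, d2, d3⟩ := hpj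
        have g2 : X N q j = j := by simp [X, hj]
        have f2 : X N q (finRotate (N + 1) i) = i + 1 := by
          rw [rot_val, if_neg (by omega)]
          simp only [X]
          rw [if_pos (by omega)]
        have f1 : X N q j ≤ X N q (finRotate (N + 1) i) := by exact_mod_cast d1.trans c2
        have f4 : (i : ℕ) + 1 = j := by omega
        have f5 : finRotate (N + 1) i = j := by
          apply Fin.ext
          rw [rot_val, if_neg (by omega), f4]
        left
        refine ⟨?_, f5⟩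
        rw [f5]
        have f6 : p.1 = (X N q j : ℝ) := by
          apply le_antisymm _ d1
          rw [f5] at c2
          exact c2
        apply Prod.ext
        · simp only [poly]; exact f6
        · simp only [poly]
          rw [d3, f6, PL_nat (by omega) (by omega)]
          simp only [Y]
          rw [if_pos (by omega)]
  intro i j hij p hp
  obtain ⟨hpi, hpj⟩ := hp
  have hne : (i : ℕ) ≠ j := fun h => hij (Fin.ext h)
  rcases Nat.lt_or_gt_of_ne hne with h | h
  · rcases key i j h p hpi hpj with ⟨h1, h2⟩ | ⟨h1, h2⟩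
    · refine ⟨Or.inr h1, Or.inl ?_⟩
      rw [h1, h2]
    · refine ⟨Or.inl h1, Or.inr ?_⟩
      rw [h1, ← h2]
      rfl
  · rcases key j i h p hpj hpi with ⟨h1, h2⟩ | ⟨h1, h2⟩
    · refine ⟨Or.inl ?_, Or.inr h1⟩
      rw [h1, h2]
    · refine ⟨Or.inr ?_, Or.inl h1⟩
      rw [h1, ← h2]
      rfl

/-- visibility in terms of the chain nodes -/
lemma seg_subset_iff {a b : ℕ} (hab : a < b) (hb : b ≤ N) {α β : ℝ} :
    segment ℝ ((a : ℝ), α) ((b : ℝ), β) ⊆ slab (PL G N) (PL H N) 0 N ↔
      ∀ k : ℕ, a ≤ k → k ≤ b →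
        G k ≤ α + ((k : ℝ) - a) * ((β - α) / ((b : ℝ) - a)) ∧
        α + ((k : ℝ) - a) * ((β - α) / ((b : ℝ) - a)) ≤ H k := by
  have hab' : (a : ℝ) < b := by exact_mod_cast hab
  rw [segment_eq hab']
  constructor
  · intro h k h1 h2
    have := h (a := ((k : ℝ), α + ((k : ℝ) - a) * ((β - α) / ((b : ℝ) - a))))
      ⟨by show (a : ℝ) ≤ k; exact_mod_cast h1, by show (k : ℝ) ≤ b; exact_mod_cast h2, rfl⟩
    obtain ⟨_, _, h3, h4⟩ := this
    simp only at h3 h4
    rw [PL_nat (by omega) (by omega)] at h3 h4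
    exact ⟨h3, h4⟩
  · intro h p hp
    obtain ⟨h1, h2, h3⟩ := hp
    obtain ⟨k, hk1, hk2, hk3, hk4⟩ := exists_cell hab h1 h2
    obtain ⟨u1, u2⟩ := h k hk1 hk2.le
    obtain ⟨w1, w2⟩ := h (k + 1) (by omega) hk2
    generalize (β - α) / ((b : ℝ) - a) = s at *
    push_cast at w1 w2
    have t0 : 0 ≤ p.1 - k := by linarith
    have t1 : 0 ≤ 1 - (p.1 - k) := by linarith
    refine ⟨le_trans (Nat.cast_nonneg _) h1, h2.trans (by exact_mod_cast hb), ?_, ?_⟩
    · rw [PL_eq (lt_of_lt_of_le hk2 hb) hk3 hk4, h3]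
      have b1 := mul_le_mul_of_nonneg_left u1 t1
      have b2 := mul_le_mul_of_nonneg_left w1 t0
      nlinarith
    · rw [PL_eq (lt_of_lt_of_le hk2 hb) hk3 hk4, h3]
      have b1 := mul_le_mul_of_nonneg_left u2 t1
      have b2 := mul_le_mul_of_nonneg_left w2 t0
      nlinarith

/-! ## The polygons of the construction -/

/-- a large constant -/
def LL (p m : ℕ) : ℝ := (2 * p + m + 1) ^ 2

/-- the height of the `j`-th target -/
def tt (p m j : ℕ) : ℝ := LL p m * (2 * p + 1) + 1 - (j : ℝ) ^ 2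

/-- the heights of the upper chain -/
def HH (p m k : ℕ) : ℝ := min (LL p m * k) (LL p m * (2 * p + 1) + 1 - ((k : ℝ) - 2 * p) ^ 2)

/-- the slope from the `c`-th peak to the `j`-th target -/
def ss (p m c j : ℕ) : ℝ := (tt p m j + (c : ℝ) ^ 2) / (2 * p + j - 2 * c)

/-- the slope from the `i`-th valley to the next peak -/
def sg (p m : ℕ) (f : ℕ → ℕ) (i : ℕ) : ℝ := (ss p m (i + 1) (f i) + ss p m (i + 1) (f i + 1)) / 2

/-- the heights of the lower chain -/
def GG (p m : ℕ) (f : ℕ → ℕ) (k : ℕ) : ℝ :=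
  if k ≤ 2 * p then
    (if k % 2 = 0 then -((k : ℝ) / 2) ^ 2 else -(((k : ℝ) + 1) / 2) ^ 2 - sg p m f (k / 2))
  else -(p : ℝ) ^ 2 + ((k : ℝ) - 2 * p) * ((tt p m m + (p : ℝ) ^ 2) / m)

/-- the conditions on the parameters -/
structure Par (p m : ℕ) (f : ℕ → ℕ) : Prop where
  hp : 1 ≤ p
  hm : 2 ≤ m
  f1 : ∀ i, i < p → 1 ≤ f i
  f2 : ∀ i, i < p → f i + 1 ≤ m

variable {p m : ℕ} {f : ℕ → ℕ}

lemma LL_ge (p m : ℕ) : (2 * p + m + 1 : ℝ) ≤ LL p m := by
  unfold LL
  have hp : (0 : ℝ) ≤ p := Nat.cast_nonneg _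
  have hm : (0 : ℝ) ≤ m := Nat.cast_nonneg _
  nlinarith

lemma tt_pos {j : ℕ} (hj : j ≤ m) : 0 < tt p m j := by
  unfold tt LL
  have hp : (0 : ℝ) ≤ p := Nat.cast_nonneg _
  have hj0 : (0 : ℝ) ≤ j := Nat.cast_nonneg _
  have hj' : (j : ℝ) ≤ m := by exact_mod_cast hj
  nlinarith [mul_nonneg hp (sq_nonneg ((2 : ℝ) * p + m + 1))]

lemma tt_anti {j j' : ℕ} (h : j < j') : tt p m j' < tt p m j := by
  unfold tt
  have h' : (j : ℝ) < j' := by exact_mod_cast h
  have hj : (0 : ℝ) ≤ j := Nat.cast_nonneg _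
  nlinarith

lemma HH_low {k : ℕ} (hk : k ≤ 2 * p + 1) : HH p m k = LL p m * k := by
  unfold HH
  apply min_eq_left
  rcases Nat.lt_or_ge k (2 * p + 1) with h | h
  · have h' : (k : ℝ) + 1 ≤ 2 * p + 1 := by exact_mod_cast h
    have hk0 : (0 : ℝ) ≤ k := Nat.cast_nonneg _
    have hp : (0 : ℝ) ≤ p := Nat.cast_nonneg _
    have hm : (0 : ℝ) ≤ m := Nat.cast_nonneg _
    have hL0 : 0 ≤ LL p m := by unfold LL; positivity
    have hL : (2 * p : ℝ) ^ 2 ≤ LL p m := by
      unfold LL
      nlinarith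
    nlinarith
  · obtain rfl : k = 2 * p + 1 := le_antisymm hk h
    push_cast
    ring_nf
    linarith

lemma HH_high {j : ℕ} (hj : 1 ≤ j) : HH p m (2 * p + j) = tt p m j := by
  unfold HH tt
  have hj' : (1 : ℝ) ≤ j := by exact_mod_cast hj
  have hL0 : 0 ≤ LL p m := by unfold LL; positivity
  push_cast
  rw [min_eq_right]
  · ring
  · nlinarith

lemma HH_chord {a b k : ℕ} (hab : a < b) (h1 : a ≤ k) (h2 : k ≤ b) {α β : ℝ}
    (hα : α ≤ HH p m a) (hβ : β ≤ HH p m b) :
    α * ((b : ℝ) - k) + β * ((k : ℝ) - a) ≤ HH p m k * ((b : ℝ) - a) := by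
  have g1 : (a : ℝ) ≤ k := by exact_mod_cast h1
  have g2 : (k : ℝ) ≤ b := by exact_mod_cast h2
  have g3 : (a : ℝ) < b := by exact_mod_cast hab
  have e0 : α * ((b : ℝ) - k) + β * ((k : ℝ) - a) ≤
      HH p m a * ((b : ℝ) - k) + HH p m b * ((k : ℝ) - a) := by
    have := mul_le_mul_of_nonneg_right hα (sub_nonneg.mpr g2)
    have := mul_le_mul_of_nonneg_right hβ (sub_nonneg.mpr g1)
    linarith
  refine e0.trans ?_
  have a1 : HH p m a ≤ LL p m * a := min_le_left _ _
  have b1 : HH p m b ≤ LL p m * b := min_le_left _ _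
  have a2 : HH p m a ≤ LL p m * (2 * p + 1) + 1 - ((a : ℝ) - 2 * p) ^ 2 := min_le_right _ _
  have b2 : HH p m b ≤ LL p m * (2 * p + 1) + 1 - ((b : ℝ) - 2 * p) ^ 2 := min_le_right _ _
  rcases min_choice (LL p m * k) (LL p m * (2 * p + 1) + 1 - ((k : ℝ) - 2 * p) ^ 2) with h | h
  · have : HH p m k = LL p m * k := h
    rw [this]
    have := mul_le_mul_of_nonneg_right a1 (sub_nonneg.mpr g2)
    have := mul_le_mul_of_nonneg_right b1 (sub_nonneg.mpr g1)
    nlinarith
  · have : HH p m k = LL p m * (2 * p + 1) + 1 - ((k : ℝ) - 2 * p) ^ 2 := h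
    rw [this]
    have c1 := mul_le_mul_of_nonneg_right a2 (sub_nonneg.mpr g2)
    have c2 := mul_le_mul_of_nonneg_right b2 (sub_nonneg.mpr g1)
    have c3 : 0 ≤ ((b : ℝ) - a) * (((b : ℝ) - k) * ((k : ℝ) - a)) :=
      mul_nonneg (by linarith) (mul_nonneg (by linarith) (by linarith))
    nlinarith

lemma ss_den {c j : ℕ} (hc : c ≤ p) (hj : 1 ≤ j) : (0 : ℝ) < 2 * p + j - 2 * c := by
  have hc' : (c : ℝ) ≤ p := by exact_mod_cast hc
  have hj' : (1 : ℝ) ≤ j := by exact_mod_cast hj
  linarith

lemma ss_pos {c j : ℕ} (hc : c ≤ p) (hj : 1 ≤ j) (hjm : j ≤ m) : 0 < ss p m c j := by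
  unfold ss
  apply div_pos _ (ss_den hc hj)
  have := tt_pos (p := p) hjm
  positivity

lemma ss_anti {c j j' : ℕ} (hc : c ≤ p) (hj : 1 ≤ j) (hjj : j < j') (hjm : j' ≤ m) :
    ss p m c j' < ss p m c j := by
  unfold ss
  have h1 := tt_anti (p := p) (m := m) hjj
  have h2 := tt_pos (p := p) hjm
  have h3 : (j : ℝ) < j' := by exact_mod_cast hjj
  apply div_lt_div₀
  · linarith
  · linarith
  · have := tt_pos (p := p) (hjj.le.trans hjm)
    positivity
  · exact ss_den hc hj

lemma sg_pos (hP : Par p m f) {i : ℕ} (hi : i < p) : 0 < sg p m f i := by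
  have h1 := hP.f1 i hi
  have h2 := hP.f2 i hi
  have := ss_pos (p := p) (m := m) (c := i + 1) hi h1 (by omega)
  have := ss_pos (p := p) (m := m) (c := i + 1) (j := f i + 1) hi (by omega) (by omega)
  unfold sg
  linarith

lemma sg_lt (hP : Par p m f) {i j : ℕ} (hi : i < p) (hj : 1 ≤ j) (hjf : j ≤ f i) :
    sg p m f i < ss p m (i + 1) j := by
  have h1 := hP.f1 i hi
  have h2 := hP.f2 i hi
  have a1 := ss_anti (p := p) (m := m) (c := i + 1) hi h1 (Nat.lt_succ_self (f i)) h2
  have a2 : ss p m (i + 1) (f i) ≤ ss p m (i + 1) j := by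
    rcases Nat.lt_or_ge j (f i) with h | h
    · exact (ss_anti (p := p) (m := m) (c := i + 1) hi hj h (by omega)).le
    · rw [le_antisymm hjf h]
  unfold sg
  simp only [Nat.succ_eq_add_one] at a1
  linarith

lemma lt_sg (hP : Par p m f) {i j : ℕ} (hi : i < p) (hjf : f i < j) (hjm : j ≤ m) :
    ss p m (i + 1) j < sg p m f i := by
  have h1 := hP.f1 i hi
  have h2 := hP.f2 i hi
  have a1 := ss_anti (p := p) (m := m) (c := i + 1) hi h1 (Nat.lt_succ_self (f i)) h2
  have a2 : ss p m (i + 1) j ≤ ss p m (i + 1) (f i + 1) := by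
    rcases Nat.lt_or_ge (f i + 1) j with h | h
    · exact (ss_anti (p := p) (m := m) (c := i + 1) hi (by omega) h (by omega)).le
    · rw [show j = f i + 1 by omega]
  unfold sg
  simp only [Nat.succ_eq_add_one] at a1
  linarith

lemma GG_even {c : ℕ} (hc : c ≤ p) : GG p m f (2 * c) = -(c : ℝ) ^ 2 := by
  unfold GG
  rw [if_pos (by omega), if_pos (by omega)]
  push_cast
  ring

lemma GG_odd {i : ℕ} (hi : i < p) :
    GG p m f (2 * i + 1) = -((i : ℝ) + 1) ^ 2 - sg p m f i := by
  unfold GG
  rw [if_pos (by omega), if_neg (by omega), show (2 * i + 1) / 2 = i by omega]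
  push_cast
  ring

lemma GG_high {k : ℕ} (hk : 2 * p ≤ k) :
    GG p m f k = -(p : ℝ) ^ 2 + ((k : ℝ) - 2 * p) * ((tt p m m + (p : ℝ) ^ 2) / m) := by
  rcases Nat.lt_or_ge (2 * p) k with h | h
  · unfold GG
    rw [if_neg (by omega)]
  · obtain rfl : k = 2 * p := le_antisymm h hk
    rw [GG_even le_rfl]
    push_cast
    ring

lemma GG_low_le (hP : Par p m f) {k : ℕ} (hk : k ≤ 2 * p) : GG p m f k ≤ -(k : ℝ) ^ 2 / 4 := by
  rcases Nat.even_or_odd' k with ⟨c, rfl | rfl⟩
  · rw [GG_even (by omega)]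
    push_cast
    apply le_of_eq
    ring
  · have hi : c < p := by omega
    rw [GG_odd hi]
    have := sg_pos hP hi
    have hc : (0 : ℝ) ≤ c := Nat.cast_nonneg _
    push_cast
    nlinarith

lemma GG_le_peak (hP : Par p m f) {k c : ℕ} (hk : k ≤ 2 * p) (hc : 2 * c ≤ k) :
    GG p m f k ≤ -(c : ℝ) ^ 2 := by
  have h := GG_low_le hP hk
  have h1 : (2 * c : ℝ) ≤ k := by exact_mod_cast hc
  have hc0 : (0 : ℝ) ≤ c := Nat.cast_nonneg _
  nlinarith

lemma GG_N (hP : Par p m f) : GG p m f (2 * p + m) = tt p m m := by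
  rw [GG_high (by omega)]
  have hm : (m : ℝ) ≠ 0 := by
    have := hP.hm
    positivity
  push_cast
  field_simp
  ring

lemma good (hP : Par p m f) : Good (2 * p + m) (2 * p) (GG p m f) (HH p m) := by
  have hp := hP.hp
  have hm := hP.hm
  have hm' : (0 : ℝ) < m := by exact_mod_cast (by omega : 0 < m)
  have htm := tt_pos (p := p) (le_refl m)
  refine ⟨by omega, by omega, ?_, ?_, ?_, ?_, ?_⟩
  · rw [HH_low (by omega)]
    have := GG_even (p := p) (m := m) (f := f) (c := 0) (by omega)
    simpa using this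
  · rw [GG_N hP, HH_high (by omega)]
  · intro k h1 h2
    have hk1 : (1 : ℝ) ≤ k := by exact_mod_cast h1
    rcases Nat.lt_or_ge (2 * p) k with h | h
    · obtain ⟨j, rfl⟩ : ∃ j, k = 2 * p + j := ⟨k - 2 * p, by omega⟩
      have hjm : j < m := by omega
      rw [GG_high (by omega), HH_high (by omega)]
      have h3 := tt_anti (p := p) (m := m) hjm
      have hj' : (j : ℝ) < m := by exact_mod_cast hjm
      have e : -(p : ℝ) ^ 2 + (((2 * p + j : ℕ) : ℝ) - 2 * p) * ((tt p m m + (p : ℝ) ^ 2) / m)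
          < tt p m m := by
        have e1 : (((2 * p + j : ℕ) : ℝ) - 2 * p) = j := by push_cast; ring
        rw [e1]
        have e2 : (j : ℝ) * ((tt p m m + (p : ℝ) ^ 2) / m) < m * ((tt p m m + (p : ℝ) ^ 2) / m) := by
          apply mul_lt_mul_of_pos_right hj'
          positivity
        have e3 : (m : ℝ) * ((tt p m m + (p : ℝ) ^ 2) / m) = tt p m m + (p : ℝ) ^ 2 := by
          field_simp
        linarith
      linarith
    · have h3 := GG_low_le hP h
      rw [HH_low (by omega)]
      have h4 := LL_ge p m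
      have h5 : (0 : ℝ) ≤ p := Nat.cast_nonneg _
      have h6 : 0 < LL p m * k := by
        apply mul_pos _ (by linarith)
        linarith
      nlinarith
  · refine ⟨(tt p m m + (p : ℝ) ^ 2) / m, ?_⟩
    intro k h1 h2
    rw [GG_high h1, GG_even le_rfl]
    push_cast
    ring
  · refine ⟨LL p m, ?_⟩
    intro k _ h2
    rw [HH_low h2, HH_low (by omega)]
    push_cast
    ring

/-- the height of the vertex over `k` -/
abbrev YY (p m : ℕ) (f : ℕ → ℕ) (k : ℕ) : ℝ := Y (2 * p) (GG p m f) (HH p m) k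

lemma YY_low {k : ℕ} (hk : k ≤ 2 * p) : YY p m f k = GG p m f k := by
  simp only [YY, Y]
  rw [if_pos hk]

lemma YY_high {j : ℕ} (hj : 1 ≤ j) : YY p m f (2 * p + j) = tt p m j := by
  simp only [YY, Y]
  rw [if_neg (by omega), HH_high hj]

lemma GG_le_HH (hP : Par p m f) {k : ℕ} (hk : k ≤ 2 * p + m) : GG p m f k ≤ HH p m k := by
  have hG := good hP
  rcases Nat.eq_zero_or_pos k with h | h
  · rw [h, hG.h0]
  · rcases Nat.lt_or_ge k (2 * p + m) with h' | h'
    · exact (hG.lt k h h').le
    · obtain rfl : k = 2 * p + m := le_antisymm hk h'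
      rw [hG.hN]

lemma YY_le_HH (hP : Par p m f) {k : ℕ} (hk : k ≤ 2 * p + m) : YY p m f k ≤ HH p m k := by
  simp only [YY, Y]
  split_ifs
  · exact GG_le_HH hP hk
  · exact le_rfl

lemma GG_le_YY (hP : Par p m f) {k : ℕ} (hk : k ≤ 2 * p + m) : GG p m f k ≤ YY p m f k := by
  simp only [YY, Y]
  split_ifs
  · exact le_rfl
  · exact GG_le_HH hP hk

/-- visibility of the vertices over `a < b`, in the polygon -/
def Sees (p m : ℕ) (f : ℕ → ℕ) (a b : ℕ) : Prop :=
  segment ℝ ((a : ℝ), YY p m f a) ((b : ℝ), YY p m f b) ⊆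
    slab (PL (GG p m f) (2 * p + m)) (PL (HH p m) (2 * p + m)) 0 ((2 * p + m : ℕ) : ℝ)

lemma sees_iff (hP : Par p m f) {a b : ℕ} (hab : a < b) (hb : b ≤ 2 * p + m) :
    Sees p m f a b ↔ ∀ k : ℕ, a ≤ k → k ≤ b →
      GG p m f k * ((b : ℝ) - a) ≤
        YY p m f a * ((b : ℝ) - k) + YY p m f b * ((k : ℝ) - a) := by
  unfold Sees
  rw [seg_subset_iff hab hb]
  have hab' : (0 : ℝ) < (b : ℝ) - a := by
    have : (a : ℝ) < b := by exact_mod_cast hab
    linarith
  have key : ∀ k : ℕ, YY p m f a + ((k : ℝ) - a) * ((YY p m f b - YY p m f a) / ((b : ℝ) - a)) =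
      (YY p m f a * ((b : ℝ) - k) + YY p m f b * ((k : ℝ) - a)) / ((b : ℝ) - a) := by
    intro k
    field_simp
    ring
  constructor
  · intro h k h1 h2
    have := (h k h1 h2).1
    rw [key, le_div_iff₀ hab'] at this
    exact this
  · intro h k h1 h2
    rw [key, le_div_iff₀ hab', div_le_iff₀ hab']
    exact ⟨h k h1 h2, HH_chord hab h1 h2 (YY_le_HH hP (by omega)) (YY_le_HH hP hb)⟩

lemma affine_nonneg {A B x y z : ℝ} (hxz : x ≤ z) (hzy : z ≤ y) (hx : 0 ≤ A + B * x)
    (hy : 0 ≤ A + B * y) : 0 ≤ A + B * z := by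
  rcases le_total 0 B with h | h
  · have := mul_le_mul_of_nonneg_left hxz h
    linarith
  · have := mul_le_mul_of_nonpos_left hzy h
    linarith

/-- on the affine part it suffices to check two places -/
lemma high_of_ends {a b k k0 : ℕ} {α β : ℝ} (h0 : 2 * p ≤ k0) (h1 : k0 ≤ k) (h2 : k ≤ b)
    (e1 : GG p m f k0 * ((b : ℝ) - a) ≤ α * ((b : ℝ) - k0) + β * ((k0 : ℝ) - a))
    (e2 : GG p m f b * ((b : ℝ) - a) ≤ α * ((b : ℝ) - b) + β * ((b : ℝ) - a)) :
    GG p m f k * ((b : ℝ) - a) ≤ α * ((b : ℝ) - k) + β * ((k : ℝ) - a) := by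
  rw [GG_high (by omega)] at e1 e2 ⊢
  set τ := (tt p m m + (p : ℝ) ^ 2) / m with hτ
  have := affine_nonneg (A := α * b - β * a - (-(p : ℝ) ^ 2 - 2 * p * τ) * ((b : ℝ) - a))
    (B := β - α - τ * ((b : ℝ) - a)) (x := k0) (y := b) (z := k) (by exact_mod_cast h1)
    (by exact_mod_cast h2) (by linarith) (by linarith)
  linarith

lemma sees_top_top (hP : Par p m f) {a b : ℕ} (ha : 2 * p < a) (hab : a < b)
    (hb : b ≤ 2 * p + m) : Sees p m f a b := by
  rw [sees_iff hP hab hb]
  intro k h1 h2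
  have hab' : (0 : ℝ) < (b : ℝ) - a := by
    have : (a : ℝ) < b := by exact_mod_cast hab
    linarith
  apply high_of_ends (k0 := a) ha.le h1 h2
  · have := mul_le_mul_of_nonneg_right (GG_le_YY hP (k := a) (by omega)) hab'.le
    linarith
  · have := mul_le_mul_of_nonneg_right (GG_le_YY hP (k := b) (by omega)) hab'.le
    linarith

lemma sees_low_low (hP : Par p m f) {a b : ℕ} (hab : a < b) (hb : b ≤ 2 * p) :
    Sees p m f a b ↔ (b = a + 1 ∨ (a % 2 = 0 ∧ b = a + 2)) := by
  rw [sees_iff hP hab (by omega)]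
  rw [YY_low hb, YY_low (hab.le.trans hb)]
  constructor
  · intro h
    by_contra hcon
    -- an even number strictly between
    obtain ⟨c, hc1, hc2⟩ : ∃ c, a < 2 * c ∧ 2 * c < b := by
      by_cases hpar : a % 2 = 0
      · exact ⟨a / 2 + 1, by omega, by omega⟩
      · exact ⟨(a + 1) / 2, by omega, by omega⟩
    have h1 := h (2 * c) hc1.le hc2.le
    rw [GG_even (by omega)] at h1
    have h2 := GG_low_le hP hb
    have h3 := GG_low_le hP (hab.le.trans hb)
    have g1 : (a : ℝ) < 2 * c := by exact_mod_cast hc1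
    have g2 : (2 * c : ℝ) < b := by exact_mod_cast hc2
    push_cast at h1
    have i1 := mul_le_mul_of_nonneg_right h3 (sub_nonneg.mpr g2.le)
    have i2 := mul_le_mul_of_nonneg_right h2 (sub_nonneg.mpr g1.le)
    have i3 : 0 < ((b : ℝ) - a) * (((b : ℝ) - 2 * c) * (2 * c - (a : ℝ))) := by
      apply mul_pos (by linarith)
      apply mul_pos (by linarith) (by linarith)
    nlinarith
  · rintro (h | ⟨h, h'⟩)
    · intro k h1 h2
      subst h
      rcases Nat.lt_or_ge a k with h3 | h3
      · obtain rfl : k = a + 1 := by omega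
        push_cast
        apply le_of_eq
        ring
      · obtain rfl : k = a := by omega
        push_cast
        apply le_of_eq
        ring
    · intro k h1 h2
      subst h'
      obtain ⟨c, rfl⟩ : ∃ c, a = 2 * c := ⟨a / 2, by omega⟩
      have e1 : GG p m f (2 * c + 2) = -((c : ℝ) + 1) ^ 2 := by
        rw [show 2 * c + 2 = 2 * (c + 1) by ring, GG_even (by omega)]
        push_cast
        ring
      have e2 : GG p m f (2 * c) = -(c : ℝ) ^ 2 := GG_even (by omega)
      rcases (by omega : k = 2 * c ∨ k = 2 * c + 1 ∨ k = 2 * c + 2) with rfl | rfl | rfl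
      · push_cast
        apply le_of_eq
        ring
      · rw [GG_odd (by omega), e1, e2]
        have := sg_pos hP (i := c) (by omega)
        have hc : (0 : ℝ) ≤ c := Nat.cast_nonneg _
        push_cast
        nlinarith
      · push_cast
        apply le_of_eq
        ring

lemma sees_peak_top (hP : Par p m f) {c j : ℕ} (hc : c ≤ p) (hj : 1 ≤ j) (hjm : j ≤ m) :
    Sees p m f (2 * c) (2 * p + j) := by
  have hm := hP.hm
  have hab : 2 * c < 2 * p + j := by omega
  rw [sees_iff hP hab (by omega)]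
  rw [YY_low (by omega), YY_high hj, GG_even hc]
  have ht := tt_pos (p := p) hjm
  have low : ∀ k : ℕ, 2 * c ≤ k → k ≤ 2 * p →
      GG p m f k * (((2 * p + j : ℕ) : ℝ) - ((2 * c : ℕ) : ℝ)) ≤
        -(c : ℝ) ^ 2 * (((2 * p + j : ℕ) : ℝ) - k) + tt p m j * ((k : ℝ) - ((2 * c : ℕ) : ℝ)) := by
    intro k h1 h2
    have h3 := GG_le_peak hP h2 h1
    have g1 : ((2 * c : ℕ) : ℝ) ≤ k := by exact_mod_cast h1
    have g2 : ((2 * c : ℕ) : ℝ) < ((2 * p + j : ℕ) : ℝ) := by exact_mod_cast hab
    have i1 := mul_le_mul_of_nonneg_right h3 (sub_nonneg.mpr g2.le)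
    have i2 : 0 ≤ (tt p m j + (c : ℝ) ^ 2) * ((k : ℝ) - ((2 * c : ℕ) : ℝ)) := by
      apply mul_nonneg (by positivity) (by linarith)
    nlinarith
  intro k h1 h2
  rcases Nat.lt_or_ge (2 * p) k with h | h
  · apply high_of_ends (k0 := 2 * p) le_rfl h.le h2
    · exact low (2 * p) (by omega) le_rfl
    · have h3 := GG_le_YY hP (k := 2 * p + j) (by omega)
      rw [YY_high hj] at h3
      have g2 : ((2 * c : ℕ) : ℝ) < ((2 * p + j : ℕ) : ℝ) := by exact_mod_cast hab
      have := mul_le_mul_of_nonneg_right h3 (sub_nonneg.mpr g2.le)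
      linarith
  · exact low k h1 h

lemma sees_valley_top (hP : Par p m f) {i j : ℕ} (hi : i < p) (hj : 1 ≤ j) (hjm : j ≤ m) :
    Sees p m f (2 * i + 1) (2 * p + j) ↔ j ≤ f i := by
  have hm := hP.hm
  have hab : 2 * i + 1 < 2 * p + j := by omega
  rw [sees_iff hP hab (by omega)]
  rw [YY_low (by omega), YY_high hj, GG_odd hi]
  have ht := tt_pos (p := p) hjm
  have hden := ss_den (c := i + 1) hi hj
  push_cast at hden
  constructor
  · intro h
    by_contra hcon
    push Not at hcon
    have h1 := h (2 * (i + 1)) (by omega) (by omega)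
    rw [GG_even (by omega)] at h1
    have h2 := lt_sg hP hi hcon hjm
    unfold ss at h2
    push_cast at h1 h2
    rw [div_lt_iff₀ hden] at h2
    nlinarith
  · intro hjf
    have h2 := sg_lt hP hi hj hjf
    have hs := sg_pos hP hi
    unfold ss at h2
    push_cast at h2
    rw [lt_div_iff₀ hden] at h2
    have low : ∀ k : ℕ, 2 * i + 1 ≤ k → k ≤ 2 * p →
        GG p m f k * (((2 * p + j : ℕ) : ℝ) - ((2 * i + 1 : ℕ) : ℝ)) ≤
          (-((i : ℝ) + 1) ^ 2 - sg p m f i) * (((2 * p + j : ℕ) : ℝ) - k) +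
            tt p m j * ((k : ℝ) - ((2 * i + 1 : ℕ) : ℝ)) := by
      intro k h1 h2'
      have g2 : ((2 * i + 1 : ℕ) : ℝ) < ((2 * p + j : ℕ) : ℝ) := by exact_mod_cast hab
      rcases Nat.lt_or_ge (2 * i + 1) k with h | h
      · have h3 := GG_le_peak hP (c := i + 1) h2' (by omega)
        have g1 : ((2 * i + 1 : ℕ) : ℝ) + 1 ≤ k := by exact_mod_cast h
        have i1 := mul_le_mul_of_nonneg_right h3 (sub_nonneg.mpr g2.le)
        push_cast at i1 g1 ⊢
        have i2 : 0 ≤ (tt p m j + ((i : ℝ) + 1) ^ 2) * ((k : ℝ) - (2 * i + 1) - 1) := by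
          apply mul_nonneg (by positivity) (by linarith)
        have i3 : 0 ≤ sg p m f i * ((k : ℝ) - (2 * i + 1) - 1) := by
          apply mul_nonneg hs.le (by linarith)
        nlinarith
      · obtain rfl : k = 2 * i + 1 := le_antisymm h h1
        rw [GG_odd hi]
        apply le_of_eq
        ring
    intro k h1 h2'
    rcases Nat.lt_or_ge (2 * p) k with h | h
    · apply high_of_ends (k0 := 2 * p) le_rfl h.le h2'
      · exact low (2 * p) (by omega) le_rfl
      · have h3 := GG_le_YY hP (k := 2 * p + j) (by omega)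
        rw [YY_high hj] at h3
        have g2 : ((2 * i + 1 : ℕ) : ℝ) < ((2 * p + j : ℕ) : ℝ) := by exact_mod_cast hab
        have := mul_le_mul_of_nonneg_right h3 (sub_nonneg.mpr g2.le)
        linarith
    · exact low k h1 h

/-! ## No straight angles -/

lemma not_collinear_of_det {P Q R : ℝ × ℝ}
    (h : (Q.1 - P.1) * (R.2 - P.2) ≠ (R.1 - P.1) * (Q.2 - P.2)) :
    ¬ Collinear ℝ {P, Q, R} := by
  intro hc
  rw [collinear_iff_of_mem (p₀ := P) (by simp)] at hc
  obtain ⟨v, hv⟩ := hc
  obtain ⟨r, hr⟩ := hv Q (by simp)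
  obtain ⟨s, hs⟩ := hv R (by simp)
  apply h
  rw [hr, hs]
  simp only [vadd_eq_add, Prod.fst_add, Prod.snd_add, Prod.smul_fst, Prod.smul_snd, smul_eq_mul]
  ring

lemma corners_poly (hP : Par p m f) : HasCorners (poly (2 * p + m) (2 * p) (GG p m f) (HH p m)) := by
  have hp := hP.hp
  have hm := hP.hm
  intro i
  apply not_collinear_of_det
  have hi := i.2
  -- coordinates
  have hc : ∀ j : Fin (2 * p + m + 1), ∀ x : ℕ, X (2 * p + m) (2 * p) j = x →
      poly (2 * p + m) (2 * p) (GG p m f) (HH p m) j = ((x : ℝ), YY p m f x) := by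
    rintro j x rfl
    rfl
  have hm0 : (0 : ℝ) < m := by exact_mod_cast (by omega : 0 < m)
  rcases (by omega : (i : ℕ) + 2 ≤ 2 * p ∨ (i : ℕ) + 1 = 2 * p ∨ (i : ℕ) = 2 * p ∨
      (2 * p < (i : ℕ) ∧ (i : ℕ) + 2 ≤ 2 * p + m) ∨ (2 * p < (i : ℕ) ∧ (i : ℕ) + 1 = 2 * p + m) ∨
      (i : ℕ) = 2 * p + m) with h | h | h | ⟨h', h⟩ | ⟨h', h⟩ | h
  · have r1 : ((finRotate (2 * p + m + 1) i : Fin (2 * p + m + 1)) : ℕ) = i + 1 := by
      rw [rot_val, if_neg (by omega)]
    have r2 : ((finRotate (2 * p + m + 1) (finRotate (2 * p + m + 1) i) :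
        Fin (2 * p + m + 1)) : ℕ) = i + 2 := by
      rw [rot_val, r1, if_neg (by omega)]
    rw [hc i i (by simp only [X]; rw [if_pos (by omega)]),
      hc _ (i + 1) (by simp only [X]; rw [r1, if_pos (by omega)]),
      hc _ (i + 2) (by simp only [X]; rw [r2, if_pos (by omega)])]
    simp only
    rw [YY_low (by omega), YY_low (by omega), YY_low (by omega)]
    generalize (i : ℕ) = k at *
    rcases Nat.even_or_odd' k with ⟨c, rfl | rfl⟩
    · rw [GG_even (by omega), GG_odd (by omega), show 2 * c + 2 = 2 * (c + 1) by ring,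
        GG_even (by omega)]
      have := sg_pos hP (i := c) (by omega)
      have hc0 : (0 : ℝ) ≤ c := Nat.cast_nonneg _
      apply ne_of_gt
      push_cast
      nlinarith
    · have e1 : GG p m f (2 * c + 1 + 1) = -((c : ℝ) + 1) ^ 2 := by
        rw [show 2 * c + 1 + 1 = 2 * (c + 1) by ring, GG_even (by omega)]
        push_cast
        ring
      have e2 := GG_low_le hP (k := 2 * c + 1) (by omega)
      have e3 := GG_low_le hP (k := 2 * c + 1 + 2) (by omega)
      rw [e1]
      apply ne_of_lt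
      push_cast at e2 e3 ⊢
      nlinarith
  · have r1 : ((finRotate (2 * p + m + 1) i : Fin (2 * p + m + 1)) : ℕ) = 2 * p := by
      rw [rot_val, if_neg (by omega), h]
    have r2 : ((finRotate (2 * p + m + 1) (finRotate (2 * p + m + 1) i) :
        Fin (2 * p + m + 1)) : ℕ) = 2 * p + 1 := by
      rw [rot_val, r1, if_neg (by omega)]
    obtain ⟨c, hcp⟩ : ∃ c, p = c + 1 := ⟨p - 1, by omega⟩
    rw [hc i (2 * c + 1) (by simp only [X]; rw [if_pos (by omega)]; omega),
      hc _ (2 * p) (by simp only [X]; rw [r1, if_pos (by omega)]),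
      hc _ (2 * p + m) (by simp only [X]; rw [r2, if_neg (by omega)]; omega)]
    simp only
    rw [YY_low (k := 2 * c + 1) (by omega), YY_low (k := 2 * p) (by omega),
      YY_high (j := m) (by omega), GG_odd (by omega), GG_even (by omega)]
    have h1 := lt_sg hP (i := c) (j := m) (by omega) (by have := hP.f2 c (by omega); omega)
      le_rfl
    unfold ss at h1
    subst hcp
    push_cast at h1 ⊢
    have hd : (2 * ((c : ℝ) + 1) + m - 2 * (c + 1)) = m := by ring
    rw [hd, div_lt_iff₀ hm0] at h1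
    apply ne_of_lt
    nlinarith
  · have r1 : ((finRotate (2 * p + m + 1) i : Fin (2 * p + m + 1)) : ℕ) = 2 * p + 1 := by
      rw [rot_val, if_neg (by omega), h]
    have r2 : ((finRotate (2 * p + m + 1) (finRotate (2 * p + m + 1) i) :
        Fin (2 * p + m + 1)) : ℕ) = 2 * p + 2 := by
      rw [rot_val, r1, if_neg (by omega)]
    obtain ⟨n, rfl⟩ : ∃ n, m = n + 2 := ⟨m - 2, by omega⟩
    rw [hc i (2 * p) (by simp only [X]; rw [if_pos (by omega)]; omega),
      hc _ (2 * p + (n + 2)) (by simp only [X]; rw [r1, if_neg (by omega)]; omega),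
      hc _ (2 * p + (n + 1)) (by simp only [X]; rw [r2, if_neg (by omega)]; omega)]
    simp only
    rw [YY_low (k := 2 * p) (by omega), YY_high (j := n + 2) (by omega),
      YY_high (j := n + 1) (by omega), GG_even (by omega)]
    have t1 := tt_anti (p := p) (m := n + 2) (show n + 1 < n + 2 by omega)
    have t2 := tt_pos (p := p) (m := n + 2) (le_refl (n + 2))
    apply ne_of_gt
    push_cast
    have hn : (0 : ℝ) ≤ n := Nat.cast_nonneg _
    nlinarith
  · have r1 : ((finRotate (2 * p + m + 1) i : Fin (2 * p + m + 1)) : ℕ) = i + 1 := by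
      rw [rot_val, if_neg (by omega)]
    have r2 : ((finRotate (2 * p + m + 1) (finRotate (2 * p + m + 1) i) :
        Fin (2 * p + m + 1)) : ℕ) = i + 2 := by
      rw [rot_val, r1, if_neg (by omega)]
    obtain ⟨j, hj⟩ : ∃ j, (i : ℕ) + j + 2 = 2 * p + m := ⟨2 * p + m - i - 2, by omega⟩
    rw [hc i (2 * p + (j + 3)) (by simp only [X]; rw [if_neg (by omega)]; omega),
      hc _ (2 * p + (j + 2)) (by simp only [X]; rw [r1, if_neg (by omega)]; omega),
      hc _ (2 * p + (j + 1)) (by simp only [X]; rw [r2, if_neg (by omega)]; omega)]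
    simp only
    rw [YY_high (by omega), YY_high (by omega), YY_high (by omega)]
    unfold tt
    apply ne_of_gt
    push_cast
    nlinarith
  · have r1 : ((finRotate (2 * p + m + 1) i : Fin (2 * p + m + 1)) : ℕ) = i + 1 := by
      rw [rot_val, if_neg (by omega)]
    have r2 : ((finRotate (2 * p + m + 1) (finRotate (2 * p + m + 1) i) :
        Fin (2 * p + m + 1)) : ℕ) = 0 := by
      rw [rot_val, r1, if_pos (by omega)]
    rw [hc i (2 * p + 2) (by simp only [X]; rw [if_neg (by omega)]; omega),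
      hc _ (2 * p + 1) (by simp only [X]; rw [r1, if_neg (by omega)]; omega),
      hc _ 0 (by simp only [X]; rw [r2, if_pos (by omega)])]
    simp only
    rw [YY_high (by omega), YY_high (by omega), YY_low (by omega),
      show (0 : ℕ) = 2 * 0 by ring, GG_even (by omega)]
    have t1 := tt_anti (p := p) (m := m) (show 1 < 2 by omega)
    have t2 := tt_pos (p := p) (m := m) hm
    have hp0 : (0 : ℝ) ≤ p := Nat.cast_nonneg _
    apply ne_of_gt
    push_cast
    nlinarith
  · have r1 : ((finRotate (2 * p + m + 1) i : Fin (2 * p + m + 1)) : ℕ) = 0 := by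
      rw [rot_val, if_pos (by omega)]
    have r2 : ((finRotate (2 * p + m + 1) (finRotate (2 * p + m + 1) i) :
        Fin (2 * p + m + 1)) : ℕ) = 1 := by
      rw [rot_val, r1, if_neg (by omega)]
    rw [hc i (2 * p + 1) (by simp only [X]; rw [if_neg (by omega)]; omega),
      hc _ 0 (by simp only [X]; rw [r1, if_pos (by omega)]),
      hc _ 1 (by simp only [X]; rw [r2, if_pos (by omega)])]
    simp only
    rw [YY_high (by omega), YY_low (by omega), YY_low (by omega)]
    have e1 : GG p m f 0 = 0 := by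
      have := GG_even (p := p) (m := m) (f := f) (c := 0) (by omega)
      simpa using this
    have e2 : GG p m f 1 < 0 := by
      have := GG_low_le hP (k := 1) (by omega)
      push_cast at this
      linarith
    have t2 := tt_pos (p := p) (m := m) (j := 1) (by omega)
    have hp0 : (0 : ℝ) ≤ p := Nat.cast_nonneg _
    rw [e1]
    apply ne_of_gt
    push_cast
    nlinarith

/-! ## The visibility graphs -/

/-- visibility of the vertices over `a < b` -/
def rel (p : ℕ) (f : ℕ → ℕ) (a b : ℕ) : Prop :=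
  (b ≤ 2 * p ∧ (b = a + 1 ∨ (a % 2 = 0 ∧ b = a + 2))) ∨
    (2 * p < b ∧ (a < 2 * p → a % 2 = 1 → b ≤ 2 * p + f (a / 2)))

lemma sees_iff_rel (hP : Par p m f) {a b : ℕ} (hab : a < b) (hb : b ≤ 2 * p + m) :
    Sees p m f a b ↔ rel p f a b := by
  unfold rel
  rcases Nat.lt_or_ge (2 * p) b with h | h
  · obtain ⟨j, rfl⟩ : ∃ j, b = 2 * p + j := ⟨b - 2 * p, by omega⟩
    rcases Nat.lt_or_ge (2 * p) a with h' | h'
    · have := sees_top_top hP h' hab hb
      simp only [this, true_iff]
      right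
      exact ⟨h, by omega⟩
    · rcases Nat.even_or_odd' a with ⟨c, rfl | rfl⟩
      · have := sees_peak_top hP (c := c) (j := j) (by omega) (by omega) (by omega)
        simp only [this, true_iff]
        right
        exact ⟨h, by omega⟩
      · rw [sees_valley_top hP (i := c) (j := j) (by omega) (by omega) (by omega)]
        rw [show (2 * c + 1) / 2 = c by omega]
        omega
  · rw [sees_low_low hP hab h]
    omega

/-- the visibility graph, on the `x`-coordinates of the vertices -/
def Gam (p m : ℕ) (f : ℕ → ℕ) : SimpleGraph (Fin (2 * p + m + 1)) where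
  Adj a b := ((a : ℕ) < b ∧ rel p f a b) ∨ ((b : ℕ) < a ∧ rel p f b a)
  symm := ⟨fun _ _ h => h.symm⟩
  loopless := ⟨fun a h => by
    rcases h with h | h <;> exact lt_irrefl _ h.1⟩

lemma vis_iso (hP : Par p m f) :
    Nonempty (Gam p m f ≃g visGraph (poly (2 * p + m) (2 * p) (GG p m f) (HH p m))) := by
  have hG := good hP
  have hinj : Function.Injective
      (fun i : Fin (2 * p + m + 1) =>
        (⟨X (2 * p + m) (2 * p) i, Nat.lt_succ_of_le (X_le hG i)⟩ : Fin (2 * p + m + 1))) := by
    intro i j h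
    apply X_inj hG
    exact congrArg Fin.val h
  let e : Fin (2 * p + m + 1) ≃ Fin (2 * p + m + 1) :=
    Equiv.ofBijective _ (Finite.injective_iff_bijective.mp hinj)
  have he : ∀ i, ((e i : Fin (2 * p + m + 1)) : ℕ) = X (2 * p + m) (2 * p) i := fun i => rfl
  have hpoly : ∀ i, poly (2 * p + m) (2 * p) (GG p m f) (HH p m) i =
      ((((e i : Fin (2 * p + m + 1)) : ℕ) : ℝ), YY p m f (e i)) := fun i => rfl
  have hadj : ∀ i j : Fin (2 * p + m + 1), (Gam p m f).Adj (e i) (e j) ↔
      (visGraph (poly (2 * p + m) (2 * p) (GG p m f) (HH p m))).Adj i j := by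
    intro i j
    show _ ↔ i ≠ j ∧ _
    rw [region_poly hG, hpoly, hpoly]
    have hi := (e i).2
    have hj := (e j).2
    rcases lt_trichotomy ((e i : Fin _) : ℕ) ((e j : Fin _) : ℕ) with h | h | h
    · have hne : i ≠ j := by
        rintro rfl
        exact lt_irrefl _ h
      have h1 := sees_iff_rel hP h (by omega)
      unfold Sees at h1
      rw [h1]
      simp only [Gam, hne, ne_eq, not_false_eq_true, true_and]
      constructor
      · rintro (h2 | h2)
        · exact h2.2
        · omega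
      · intro h2
        exact Or.inl ⟨h, h2⟩
    · have hij : i = j := by
        apply e.injective
        exact Fin.ext h
      subst hij
      simp
    · have hne : i ≠ j := by
        rintro rfl
        exact lt_irrefl _ h
      have h1 := sees_iff_rel hP h (by omega)
      unfold Sees at h1
      rw [segment_symm, h1]
      simp only [Gam, hne, ne_eq, not_false_eq_true, true_and]
      constructor
      · rintro (h2 | h2)
        · omega
        · exact h2.2
      · intro h2
        exact Or.inr ⟨h, h2⟩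
  exact ⟨(⟨e, fun {i j} => hadj i j⟩ :
    visGraph (poly (2 * p + m) (2 * p) (GG p m f) (HH p m)) ≃g Gam p m f).symm⟩

open Classical in
/-- the number of neighbours -/
def dg (p m : ℕ) (f : ℕ → ℕ) (a : ℕ) : ℕ :=
  ((Finset.range (2 * p + m + 1)).filter
    (fun b => (a < b ∧ rel p f a b) ∨ (b < a ∧ rel p f b a))).card

variable {g : ℕ → ℕ}

lemma dg_valley (hP : Par p m f) {i : ℕ} (hi : i < p) : dg p m f (2 * i + 1) = f i + 2 := by
  classical
  have h2 := hP.f2 i hi
  have : (Finset.range (2 * p + m + 1)).filter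
      (fun b => (2 * i + 1 < b ∧ rel p f (2 * i + 1) b) ∨ (b < 2 * i + 1 ∧ rel p f b (2 * i + 1)))
      = insert (2 * i) (insert (2 * i + 2) (Finset.Ioc (2 * p) (2 * p + f i))) := by
    ext b
    rw [Finset.mem_filter]
    simp only [Finset.mem_range, Finset.mem_insert, Finset.mem_Ioc, rel]
    rw [show (2 * i + 1) / 2 = i by omega]
    generalize f (b / 2) = y
    omega
  unfold dg
  convert congrArg Finset.card this using 1
  rw [Finset.card_insert_of_notMem, Finset.card_insert_of_notMem, Nat.card_Ioc]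
  · omega
  · simp only [Finset.mem_Ioc]; omega
  · simp only [Finset.mem_insert, Finset.mem_Ioc]; omega

lemma dg_peak0 (hP : Par p m f) : dg p m f 0 = m + 2 := by
  classical
  have hp := hP.hp
  have : (Finset.range (2 * p + m + 1)).filter
      (fun b => (0 < b ∧ rel p f 0 b) ∨ (b < 0 ∧ rel p f b 0))
      = insert 1 (insert 2 (Finset.Ioc (2 * p) (2 * p + m))) := by
    ext b
    rw [Finset.mem_filter]
    simp only [Finset.mem_range, Finset.mem_insert, Finset.mem_Ioc, rel]
    have h01 : ((0 : ℕ) % 2 = 1) = False := by simp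
    rw [h01]
    simp only [false_imp_iff, implies_true, and_true, true_and]
    generalize f (b / 2) = y
    omega
  unfold dg
  convert congrArg Finset.card this using 1
  rw [Finset.card_insert_of_notMem, Finset.card_insert_of_notMem, Nat.card_Ioc]
  · omega
  · simp only [Finset.mem_Ioc]; omega
  · simp only [Finset.mem_insert, Finset.mem_Ioc]; omega

lemma dg_peakp (hP : Par p m f) : dg p m f (2 * p) = m + 2 := by
  classical
  have hp := hP.hp
  have : (Finset.range (2 * p + m + 1)).filter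
      (fun b => (2 * p < b ∧ rel p f (2 * p) b) ∨ (b < 2 * p ∧ rel p f b (2 * p)))
      = insert (2 * p - 1) (insert (2 * p - 2) (Finset.Ioc (2 * p) (2 * p + m))) := by
    ext b
    rw [Finset.mem_filter]
    simp only [Finset.mem_range, Finset.mem_insert, Finset.mem_Ioc, rel]
    generalize f (b / 2) = y
    omega
  unfold dg
  convert congrArg Finset.card this using 1
  rw [Finset.card_insert_of_notMem, Finset.card_insert_of_notMem, Nat.card_Ioc]
  · omega
  · simp only [Finset.mem_Ioc]; omega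
  · simp only [Finset.mem_insert, Finset.mem_Ioc]; omega

lemma dg_peak (_hP : Par p m f) {c : ℕ} (hc : 0 < c) (hcp : c < p) :
    dg p m f (2 * c) = m + 4 := by
  classical
  have : (Finset.range (2 * p + m + 1)).filter
      (fun b => (2 * c < b ∧ rel p f (2 * c) b) ∨ (b < 2 * c ∧ rel p f b (2 * c)))
      = insert (2 * c - 1) (insert (2 * c - 2) (insert (2 * c + 1) (insert (2 * c + 2)
        (Finset.Ioc (2 * p) (2 * p + m))))) := by
    ext b
    rw [Finset.mem_filter]
    simp only [Finset.mem_range, Finset.mem_insert, Finset.mem_Ioc, rel]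
    generalize f (b / 2) = y
    omega
  unfold dg
  convert congrArg Finset.card this using 1
  rw [Finset.card_insert_of_notMem, Finset.card_insert_of_notMem,
    Finset.card_insert_of_notMem, Finset.card_insert_of_notMem, Nat.card_Ioc]
  · omega
  · simp only [Finset.mem_Ioc]; omega
  · simp only [Finset.mem_insert, Finset.mem_Ioc]; omega
  · simp only [Finset.mem_insert, Finset.mem_Ioc]; omega
  · simp only [Finset.mem_insert, Finset.mem_Ioc]; omega

lemma dg_top (_hP : Par p m f) {a : ℕ} (ha : 2 * p < a) (ham : a ≤ 2 * p + m) :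
    p + m ≤ dg p m f a := by
  classical
  have hsub : (Finset.range (p + 1)).image (fun c => 2 * c) ∪
      (Finset.Ioc (2 * p) (2 * p + m)).erase a ⊆
      (Finset.range (2 * p + m + 1)).filter
      (fun b => (a < b ∧ rel p f a b) ∨ (b < a ∧ rel p f b a)) := by
    intro b
    rw [Finset.mem_filter]
    simp only [Finset.mem_range, Finset.mem_union, Finset.mem_image,
      Finset.mem_erase, Finset.mem_Ioc, rel]
    rintro (⟨c, hc, rfl⟩ | h)
    · generalize f (2 * c / 2) = y
      omega
    · generalize f (b / 2) = y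
      generalize f (a / 2) = z
      omega
  have hcard : ((Finset.range (p + 1)).image (fun c => 2 * c) ∪
      (Finset.Ioc (2 * p) (2 * p + m)).erase a).card = p + m := by
    rw [Finset.card_union_of_disjoint, Finset.card_image_of_injective, Finset.card_range,
      Finset.card_erase_of_mem, Nat.card_Ioc]
    · omega
    · simp only [Finset.mem_Ioc]; omega
    · intro x y h
      simp only at h
      omega
    · rw [Finset.disjoint_left]
      intro b
      simp only [Finset.mem_image, Finset.mem_range, Finset.mem_erase, Finset.mem_Ioc]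
      rintro ⟨c, hc, rfl⟩
      omega
  unfold dg
  rw [← hcard]
  convert Finset.card_le_card hsub

lemma dg_iso (e : Gam p m f ≃g Gam p m g) (a : Fin (2 * p + m + 1)) :
    dg p m g (e a) = dg p m f a := by
  classical
  have key : ∀ (h : ℕ → ℕ) (a : Fin (2 * p + m + 1)),
      dg p m h a = (Finset.univ.filter (fun b => (Gam p m h).Adj a b)).card := by
    intro h a
    unfold dg
    symm
    apply Finset.card_bij (fun (b : Fin (2 * p + m + 1)) _ => (b : ℕ))
    · intro b hb
      rw [Finset.mem_filter] at hb ⊢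
      exact ⟨Finset.mem_range.mpr b.2, hb.2⟩
    · intro b _ c _ h
      exact Fin.ext h
    · intro b hb
      rw [Finset.mem_filter] at hb
      exact ⟨⟨b, Finset.mem_range.mp hb.1⟩, Finset.mem_filter.mpr ⟨Finset.mem_univ _, hb.2⟩, rfl⟩
  rw [key, key]
  symm
  apply Finset.card_bij (fun b _ => e b)
  · intro b hb
    simp only [Finset.mem_filter, Finset.mem_univ, true_and] at hb ⊢
    exact e.map_adj_iff.mpr hb
  · intro b _ c _ h
    exact e.injective h
  · intro b hb
    refine ⟨e.symm b, ?_, by simp⟩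
    simp only [Finset.mem_filter, Finset.mem_univ, true_and] at hb ⊢
    rw [← e.map_adj_iff]
    simpa using hb

/-- from the degree one reads off whether a vertex is a valley -/
lemma valley_of_dg (hP : Par p m f) (hp5 : 5 ≤ p) {a : ℕ} (ha : a ≤ 2 * p + m)
    (h : dg p m f a ≤ m + 1) : a < 2 * p ∧ a % 2 = 1 := by
  rcases Nat.lt_or_ge (2 * p) a with h1 | h1
  · have := dg_top hP h1 ha
    omega
  · rcases Nat.even_or_odd' a with ⟨c, rfl | rfl⟩
    · exfalso
      rcases Nat.eq_zero_or_pos c with rfl | hc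
      · have := dg_peak0 hP
        simp only [mul_zero] at h
        omega
      · rcases Nat.lt_or_ge c p with h2 | h2
        · have := dg_peak hP hc h2
          omega
        · obtain rfl : c = p := by omega
          have := dg_peakp hP
          omega
    · omega

lemma peak_of_dg (hP : Par p m f) (hp5 : 5 ≤ p) {a : ℕ} (ha : a ≤ 2 * p + m)
    (h : m + 1 < dg p m f a) (h' : dg p m f a ≤ m + 4) : a ≤ 2 * p ∧ a % 2 = 0 := by
  rcases Nat.lt_or_ge (2 * p) a with h1 | h1
  · have := dg_top hP h1 ha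
    omega
  · rcases Nat.even_or_odd' a with ⟨c, rfl | rfl⟩
    · omega
    · exfalso
      have := dg_valley hP (i := c) (by omega)
      have := hP.f2 c (by omega)
      omega

lemma end_of_dg (hP : Par p m f) (hp5 : 5 ≤ p) {a : ℕ} (ha : a ≤ 2 * p + m)
    (h : dg p m f a = m + 2) : a = 0 ∨ a = 2 * p := by
  obtain ⟨h1, h2⟩ := peak_of_dg hP hp5 ha (by omega) (by omega)
  obtain ⟨c, rfl⟩ : ∃ c, a = 2 * c := ⟨a / 2, by omega⟩
  by_contra hcon
  have := dg_peak hP (c := c) (by omega) (by omega)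
  omega

lemma peak_dg (hP : Par p m f) (hp5 : 5 ≤ p) {c : ℕ} (hc : c ≤ p) :
    m + 1 < dg p m f (2 * c) ∧ dg p m f (2 * c) ≤ m + 4 := by
  rcases Nat.eq_zero_or_pos c with rfl | hc0
  · have := dg_peak0 hP
    simp only [mul_zero]
    omega
  · rcases Nat.lt_or_ge c p with h2 | h2
    · have := dg_peak hP hc0 h2
      omega
    · obtain rfl : c = p := by omega
      have := dg_peakp hP
      omega

lemma decode (hf : Par p m f) (hg : Par p m g) (hp5 : 5 ≤ p) (hf0 : f 0 = 1)
    (hgl : g (p - 1) = 2) (e : Gam p m f ≃g Gam p m g) : ∀ i, i < p → f i = g i := by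
  -- the isomorphism keeps the type of the vertices of the lower chain
  have hval : ∀ i, ∀ hi : i < p, ((e ⟨2 * i + 1, by omega⟩ : Fin _) : ℕ) < 2 * p ∧
      ((e ⟨2 * i + 1, by omega⟩ : Fin _) : ℕ) % 2 = 1 := by
    intro i hi
    have h1 := dg_iso e ⟨2 * i + 1, by omega⟩
    have h2 := dg_valley hf hi
    have h3 := hf.f2 i hi
    have h4 := (e ⟨2 * i + 1, by omega⟩).2
    apply valley_of_dg hg hp5 (by omega)
    rw [h1]
    simp only
    omega
  have hpk : ∀ c, ∀ hc : c ≤ p, ((e ⟨2 * c, by omega⟩ : Fin _) : ℕ) ≤ 2 * p ∧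
      ((e ⟨2 * c, by omega⟩ : Fin _) : ℕ) % 2 = 0 := by
    intro c hc
    have h1 := dg_iso e ⟨2 * c, by omega⟩
    have h2 := peak_dg hf hp5 hc
    have h4 := (e ⟨2 * c, by omega⟩).2
    apply peak_of_dg hg hp5 (by omega)
    · rw [h1]; exact h2.1
    · rw [h1]; exact h2.2
  -- adjacency along the lower chain
  have hadj : ∀ k, ∀ hk : k + 1 ≤ 2 * p,
      (Gam p m f).Adj ⟨k, by omega⟩ ⟨k + 1, by omega⟩ := by
    intro k hk
    left
    refine ⟨by simp, ?_⟩
    left
    exact ⟨hk, Or.inl rfl⟩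
  have hgadj : ∀ a b : Fin (2 * p + m + 1), (Gam p m g).Adj a b → (a : ℕ) ≤ 2 * p →
      (b : ℕ) ≤ 2 * p → (a : ℕ) % 2 ≠ (b : ℕ) % 2 → (b : ℕ) = a + 1 ∨ (a : ℕ) = b + 1 := by
    intro a b hab ha hb hne
    rcases hab with ⟨h1, h2⟩ | ⟨h1, h2⟩
    · rcases h2 with h2 | h2
      · omega
      · omega
    · rcases h2 with h2 | h2
      · omega
      · omega
  have hpar : ∀ k, ∀ hk : k ≤ 2 * p, ((e ⟨k, by omega⟩ : Fin _) : ℕ) ≤ 2 * p ∧
      ((e ⟨k, by omega⟩ : Fin _) : ℕ) % 2 = k % 2 := by
    intro k hk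
    rcases Nat.even_or_odd' k with ⟨c, rfl | rfl⟩
    · have := hpk c (by omega)
      omega
    · have := hval c (by omega)
      omega
  have hstep : ∀ k, ∀ hk : k + 1 ≤ 2 * p,
      ((e ⟨k + 1, by omega⟩ : Fin _) : ℕ) = (e ⟨k, by omega⟩ : Fin _) + 1 ∨
      ((e ⟨k, by omega⟩ : Fin _) : ℕ) = (e ⟨k + 1, by omega⟩ : Fin _) + 1 := by
    intro k hk
    apply hgadj _ _ (e.map_adj_iff.mpr (hadj k hk)) (hpar k (by omega)).1 (hpar (k + 1) hk).1
    have := (hpar k (by omega)).2
    have := (hpar (k + 1) hk).2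
    omega
  -- the start
  have h0 : ((e ⟨0, by omega⟩ : Fin _) : ℕ) = 0 := by
    have h1 := dg_iso e ⟨0, by omega⟩
    have h2 := dg_peak0 hf
    have h4 := (e ⟨0, by omega⟩).2
    rcases end_of_dg hg hp5 (a := ((e ⟨0, by omega⟩ : Fin _) : ℕ)) (by omega)
      (by rw [h1]; exact h2) with h5 | h5
    · exact h5
    · exfalso
      have h6 := hstep 0 (by omega)
      have h7 := hpar (0 + 1) (by omega)
      have h8 : ((e ⟨0 + 1, by omega⟩ : Fin _) : ℕ) = 2 * (p - 1) + 1 := by omega
      have h9 := dg_iso e ⟨0 + 1, by omega⟩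
      rw [h8, dg_valley hg (by omega)] at h9
      have h10 := dg_valley hf (i := 0) (by omega)
      simp only [mul_zero] at h10
      simp only at h9
      omega
  have hall : ∀ k, ∀ hk : k + 1 ≤ 2 * p, ((e ⟨k, by omega⟩ : Fin _) : ℕ) = k ∧
      ((e ⟨k + 1, by omega⟩ : Fin _) : ℕ) = k + 1 := by
    intro k
    induction k with
    | zero =>
      intro hk
      refine ⟨h0, ?_⟩
      have := hstep 0 hk
      omega
    | succ k ih =>
      intro hk
      obtain ⟨h1, h2⟩ := ih (by omega)
      refine ⟨h2, ?_⟩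
      have h3 := hstep (k + 1) hk
      rcases h3 with h3 | h3
      · omega
      · exfalso
        have h4 : ((e ⟨k + 1 + 1, by omega⟩ : Fin _) : ℕ) = (e ⟨k, by omega⟩ : Fin _) := by omega
        have h5 := e.injective (Fin.ext h4)
        rw [Fin.mk.injEq] at h5
        omega
  intro i hi
  have h1 := dg_iso e ⟨2 * i + 1, by omega⟩
  have h2 := (hall (2 * i) (by omega)).2
  rw [h2, dg_valley hg hi] at h1
  simp only at h1
  rw [dg_valley hf hi] at h1
  omega

/-! ## Counting -/

/-- the choice function coming from `w` -/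
def ff (p m : ℕ) (w : Fin (p - 2) → Fin (m - 1)) (i : ℕ) : ℕ :=
  if i = 0 then 1 else if i = p - 1 then 2 else
    if h : i - 1 < p - 2 then 1 + (w ⟨i - 1, h⟩ : ℕ) else 1

lemma ff_par (hp5 : 5 ≤ p) (hm : 3 ≤ m) (w : Fin (p - 2) → Fin (m - 1)) :
    Par p m (ff p m w) := by
  refine ⟨by omega, by omega, ?_, ?_⟩
  · intro i _
    unfold ff
    split_ifs <;> omega
  · intro i _
    unfold ff
    split_ifs with h1 h2 h3
    · omega
    · omega
    · have := (w ⟨i - 1, h3⟩).2
      omega
    · omega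

/-- the main counting bound -/
theorem count_bound (hp5 : 5 ≤ p) (hm : 3 ≤ m) :
    (m - 1) ^ (p - 2) ≤ numVisCorners (2 * p + m + 1) := by
  classical
  unfold numVisCorners
  set P : SimpleGraph (Fin (2 * p + m + 1)) → Prop := fun G =>
    ∃ v : Fin (2 * p + m + 1) → ℝ × ℝ, IsSimplePolygon v ∧ HasCorners v ∧
      Nonempty (G ≃g visGraph v) with hPdef
  have hPw : ∀ w : Fin (p - 2) → Fin (m - 1), P (Gam p m (ff p m w)) := by
    intro w
    have hpar := ff_par hp5 hm w
    exact ⟨_, simple_poly (good hpar), corners_poly hpar, vis_iso hpar⟩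
  let F : (Fin (p - 2) → Fin (m - 1)) → Quotient (isoSetoid P) :=
    fun w => Quotient.mk _ ⟨Gam p m (ff p m w), hPw w⟩
  have hF : Function.Injective F := by
    intro w w' h
    have h1 : Nonempty (Gam p m (ff p m w) ≃g Gam p m (ff p m w')) := Quotient.exact h
    obtain ⟨e⟩ := h1
    have hdec := decode (ff_par hp5 hm w) (ff_par hp5 hm w') hp5 (by simp [ff])
      (by unfold ff; rw [if_neg (by omega), if_pos rfl]) e
    funext t
    have ht := t.2
    have h2 := hdec (t + 1) (by omega)
    unfold ff at h2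
    rw [if_neg (by omega), if_neg (by omega), if_neg (by omega), if_neg (by omega),
      dif_pos (by simp), dif_pos (by simp)] at h2
    apply Fin.ext
    have e1 : (⟨(t : ℕ) + 1 - 1, by simp⟩ : Fin (p - 2)) = t := Fin.ext (by simp)
    rw [e1] at h2
    omega
  have hcard := Nat.card_le_card_of_injective F hF
  have h3 : Nat.card (Fin (p - 2) → Fin (m - 1)) = (m - 1) ^ (p - 2) := by
    rw [Nat.card_eq_fintype_card]
    simp
  rw [h3] at hcard
  exact hcard

theorem corners_le (n : ℕ) : numVisCorners n ≤ numVis n := by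
  classical
  unfold numVisCorners numVis
  set P : SimpleGraph (Fin n) → Prop := fun G =>
    ∃ v : Fin n → ℝ × ℝ, IsSimplePolygon v ∧ HasCorners v ∧ Nonempty (G ≃g visGraph v)
  set Q : SimpleGraph (Fin n) → Prop := fun G =>
    ∃ v : Fin n → ℝ × ℝ, IsSimplePolygon v ∧ Nonempty (G ≃g visGraph v)
  have hPQ : ∀ G, P G → Q G := fun G ⟨v, h1, _, h3⟩ => ⟨v, h1, h3⟩
  let F : Quotient (isoSetoid P) → Quotient (isoSetoid Q) :=
    Quotient.map (fun G => ⟨G.1, hPQ G.1 G.2⟩) (fun _ _ h => h)
  have hF : Function.Injective F := by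
    intro x y
    induction x using Quotient.inductionOn
    induction y using Quotient.inductionOn
    intro h
    have h1 := Quotient.exact h
    exact Quotient.sound h1
  exact Nat.card_le_card_of_injective F hF

theorem lower_bound (ε : ℝ) (hε : 0 < ε) : ∀ᶠ n : ℕ in Filter.atTop,
    (2 : ℝ) ^ ((1 / 2 - ε) * n * Real.logb 2 n) ≤ numVisCorners n := by
  obtain ⟨K, hK⟩ := exists_nat_ge (max 2 (1 / ε))
  have hK2 : (2 : ℝ) ≤ K := (le_max_left _ _).trans hK
  have hK2' : 2 ≤ K := by exact_mod_cast hK2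
  have hKε : 1 / (K : ℝ) ≤ ε := by
    have h1 : 1 / ε ≤ K := (le_max_right _ _).trans hK
    rw [div_le_iff₀ hε] at h1
    rw [div_le_iff₀ (by linarith)]
    linarith
  set κ := Real.log (2 * K) with hκ
  have hκ0 : 0 ≤ κ := Real.log_nonneg (by linarith)
  have hlog : Filter.Tendsto (fun n : ℕ => Real.log n) Filter.atTop Filter.atTop :=
    Real.tendsto_log_atTop.comp tendsto_natCast_atTop_atTop
  filter_upwards [Filter.eventually_ge_atTop 28, Filter.eventually_ge_atTop (4 * K),
    Filter.eventually_ge_atTop ⌈14 / ε⌉₊, hlog.eventually_ge_atTop (2 * κ / ε)]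
    with n hn1 hn2 hn3 hn4
  -- the parameters
  set a := n / (2 * K) with ha
  have ha4 : a ≤ n / 4 := Nat.div_le_div_left (by omega) (by norm_num)
  have ha1 : 1 ≤ a := Nat.div_pos (by omega) (by omega)
  have hmul : 2 * K * a ≤ n := Nat.mul_div_le n (2 * K)
  have hlt : n < 2 * K * (a + 1) := by
    have := Nat.lt_mul_div_succ n (show 0 < 2 * K by omega)
    simpa [ha] using this
  obtain ⟨m, hm⟩ : ∃ m, m = 2 * a + 1 + n % 2 := ⟨_, rfl⟩
  obtain ⟨p, hp⟩ : ∃ p, p = n / 2 - 1 - a := ⟨_, rfl⟩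
  have hpm : 2 * p + m + 1 = n := by omega
  have hp5 : 5 ≤ p := by omega
  have hm3 : 3 ≤ m := by omega
  have hb := count_bound hp5 hm3
  rw [hpm] at hb
  have hb' : (((m - 1 : ℕ) : ℝ)) ^ (p - 2) ≤ numVisCorners n := by exact_mod_cast hb
  refine le_trans ?_ hb'
  have hnpos : (0 : ℝ) < n := by exact_mod_cast (by omega : 0 < n)
  have hKpos : (0 : ℝ) < K := by linarith
  -- real estimates
  have hmul' : 2 * (K : ℝ) * a ≤ n := by exact_mod_cast hmul
  have hlt' : (n : ℝ) < 2 * K * (a + 1) := by exact_mod_cast hlt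
  have hn2' : 4 * (K : ℝ) ≤ n := by exact_mod_cast hn2
  have haK : (a : ℝ) ≤ n / (2 * K) := by
    rw [le_div_iff₀ (by linarith)]
    linarith
  have hM1 : (n : ℝ) / (2 * K) ≤ ((m - 1 : ℕ) : ℝ) := by
    have h1 : ((m - 1 : ℕ) : ℝ) ≥ 2 * a := by exact_mod_cast (by omega : 2 * a ≤ m - 1)
    refine le_trans ?_ h1
    rw [div_le_iff₀ (by linarith)]
    nlinarith
  have hMpos : (0 : ℝ) < ((m - 1 : ℕ) : ℝ) := by exact_mod_cast (by omega : 0 < m - 1)
  have hM : Real.log n - κ ≤ Real.log ((m - 1 : ℕ) : ℝ) := by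
    rw [hκ, ← Real.log_div (by linarith) (by linarith)]
    exact Real.log_le_log (by positivity) hM1
  have hM0 : 0 ≤ Real.log n - κ := by
    rw [hκ, ← Real.log_div (by linarith) (by linarith)]
    apply Real.log_nonneg
    rw [le_div_iff₀ (by linarith)]
    linarith
  have hP : (n : ℝ) / 2 - 7 / 2 - n / (2 * K) ≤ ((p - 2 : ℕ) : ℝ) := by
    have h1 : n ≤ 2 * (p - 2) + 7 + 2 * a := by omega
    have h2 : (n : ℝ) ≤ 2 * ((p - 2 : ℕ) : ℝ) + 7 + 2 * a := by exact_mod_cast h1
    linarith
  have hn28 : (28 : ℝ) ≤ n := by exact_mod_cast hn1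
  have hnK : (n : ℝ) / (2 * K) ≤ n / 4 := by
    apply div_le_div_of_nonneg_left hnpos.le (by norm_num) (by linarith)
  have hP0 : 0 ≤ (n : ℝ) / 2 - 7 / 2 - n / (2 * K) := by linarith
  have hprod : ((n : ℝ) / 2 - 7 / 2 - n / (2 * K)) * (Real.log n - κ) ≤
      ((p - 2 : ℕ) : ℝ) * Real.log ((m - 1 : ℕ) : ℝ) :=
    mul_le_mul hP hM hM0 (le_trans hP0 hP)
  have hl0 : 0 ≤ Real.log n := by linarith
  have hn3' : 14 / ε ≤ n := (Nat.le_ceil _).trans (by exact_mod_cast hn3)
  rw [div_le_iff₀ hε] at hn3' hn4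
  have hmain : (1 / 2 - ε) * n * Real.log n ≤
      ((n : ℝ) / 2 - 7 / 2 - n / (2 * K)) * (Real.log n - κ) := by
    have t1 : (n : ℝ) / (2 * K) ≤ ε * n / 2 := by
      have : (n : ℝ) / (2 * K) = (1 / K) * n / 2 := by field_simp
      rw [this]
      have := mul_le_mul_of_nonneg_right hKε hnpos.le
      linarith
    have t2 : 0 ≤ (n : ℝ) / (2 * K) := by positivity
    generalize (n : ℝ) / (2 * K) = z at *
    have u1 := mul_le_mul_of_nonneg_right t1 hl0
    have u2 := mul_le_mul_of_nonneg_right hn3' hl0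
    have u3 := mul_le_mul_of_nonneg_right hn4 hnpos.le
    have u4 := mul_nonneg hκ0 t2
    nlinarith
  have e1 : (2 : ℝ) ^ ((1 / 2 - ε) * n * Real.logb 2 n) =
      Real.exp ((1 / 2 - ε) * n * Real.log n) := by
    rw [Real.rpow_def_of_pos (by norm_num), Real.logb]
    congr 1
    have : Real.log 2 ≠ 0 := by
      have := Real.log_pos (show (1 : ℝ) < 2 by norm_num)
      linarith
    field_simp
  have e2 : ((m - 1 : ℕ) : ℝ) ^ (p - 2) =
      Real.exp (((p - 2 : ℕ) : ℝ) * Real.log ((m - 1 : ℕ) : ℝ)) := by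
    rw [← Real.log_pow, Real.exp_log (by positivity)]
  rw [e1, e2]
  exact Real.exp_le_exp.mpr (hmain.trans hprod)

end

end Pool.Agent.Helper194.Vis
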